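import Pool.Agent.H88.LD.Defs

/-!
# LD-LN: level curves are null sets; boundedness

PROOF of `level_null`. One possibility: in real coordinates `z = x + iy`; for fixed `x` the function
`y ↦ ‖f.eval (x + iy)‖² - r²` is a real polynomial in `y` of degree `2n > 0` with leading coefficient `1` (or:
`y ↦ f.eval (x+iy) * conj (f.eval (x+iy)) - r²` is `y ↦ (P(y) Q(y) - r²)` with complex polynomials `P = f.comp (C x + C I * X)`,
`Q = ` the polynomial with conjugate coefficients, of degree `2n > 0`), so it has finitely many zeros;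
Fubini (`Measure.measure_prod_null` after `Complex.volume_preserving_equiv_real_prod`). Another possibility:
`f` is a local diffeomorphism outside of the finitely many zeros of `f'`.

PROOF of `sublevel_bounded`, `area_le`: `f = ∏ (X - z_j)` over the `n` roots (with multiplicity), `C` = max `‖z_j‖`
(`C = 0` possible). If `‖z‖ ≥ e^s + C` then every `‖z - z_j‖ ≥ e^s`, so `‖f.eval z‖ ≥ e^{ns}`. Hence
`{‖f‖ < e^{ns}} ⊆ ball 0 (e^s + C)`, whose area is `π (e^s + C)²` (`Complex.volume_ball`).
-/

set_option autoImplicit false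

open Polynomial Complex MeasureTheory Set
open scoped Real ComplexConjugate

noncomputable section

set_option linter.unusedVariables false

namespace Pool.Agent.H88.LD

/-- every vertical section of a level set is finite -/
theorem ln_section_finite (f : ℂ[X]) (hn : f.natDegree ≠ 0) (r x : ℝ) :
    {y : ℝ | ‖f.eval ((x : ℂ) + y * I)‖ = r}.Finite := by
  set P : ℂ[X] := f.comp (C (x : ℂ) + C I * X) with hP
  have hlin : (C (x : ℂ) + C I * X : ℂ[X]).natDegree = 1 := by
    rw [add_comm]
    exact natDegree_linear I_ne_zero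
  have hdeg : P.natDegree = f.natDegree := by
    rw [hP, natDegree_comp, hlin, mul_one]
  set Q : ℂ[X] := P.map (starRingEnd ℂ) with hQ
  have hQdeg : Q.natDegree = f.natDegree := by
    rw [hQ, natDegree_map, hdeg]
  have hP0 : P ≠ 0 := by
    intro h
    rw [h, natDegree_zero] at hdeg
    exact hn hdeg.symm
  have hQ0 : Q ≠ 0 := by
    intro h
    rw [h, natDegree_zero] at hQdeg
    exact hn hQdeg.symm
  set R : ℂ[X] := P * Q - C ((r : ℂ) ^ 2) with hR
  have hR0 : R ≠ 0 := by
    intro h0
    have h1 : P * Q = C ((r : ℂ) ^ 2) := sub_eq_zero.mp h0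
    have h2 : (P * Q).natDegree = f.natDegree + f.natDegree := by
      rw [natDegree_mul hP0 hQ0, hdeg, hQdeg]
    rw [h1, natDegree_C] at h2
    omega
  have hsub : (fun y : ℝ => (y : ℂ)) '' {y : ℝ | ‖f.eval ((x : ℂ) + y * I)‖ = r} ⊆
      {z : ℂ | z ∈ R.roots} := by
    rintro _ ⟨y, hy, rfl⟩
    have hy' : ‖f.eval ((x : ℂ) + y * I)‖ = r := hy
    change (y : ℂ) ∈ R.roots
    rw [mem_roots hR0, IsRoot.def, hR, eval_sub, eval_mul, eval_C]
    have hPe : P.eval (y : ℂ) = f.eval ((x : ℂ) + y * I) := by
      rw [hP, eval_comp, eval_add, eval_mul, eval_C, eval_C, eval_X, mul_comm I]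
    have hQe : Q.eval (y : ℂ) = conj (f.eval ((x : ℂ) + y * I)) := by
      have h3 : (y : ℂ) = (starRingEnd ℂ) (y : ℂ) := (Complex.conj_ofReal y).symm
      rw [hQ]
      conv_lhs => rw [h3]
      rw [eval_map_apply, hPe]
    rw [hPe, hQe, Complex.mul_conj, Complex.normSq_eq_norm_sq, hy']
    push_cast
    ring
  have hfin : ((fun y : ℝ => (y : ℂ)) '' {y : ℝ | ‖f.eval ((x : ℂ) + y * I)‖ = r}).Finite :=
    (Multiset.finite_toSet R.roots).subset hsub
  exact hfin.of_finite_image (Complex.ofReal_injective.injOn)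

theorem level_null (f : ℂ[X]) (hf : f.Monic) (hn : f.natDegree ≠ 0) (r : ℝ) :
    volume {z : ℂ | ‖f.eval z‖ = r} = 0 := by
  have hcont : Continuous (fun z : ℂ => ‖f.eval z‖) := by fun_prop
  have hmeas : MeasurableSet {z : ℂ | ‖f.eval z‖ = r} :=
    (isClosed_eq hcont continuous_const).measurableSet
  set T : Set (ℝ × ℝ) := {p | ‖f.eval ((p.1 : ℂ) + p.2 * I)‖ = r} with hT
  have hTm : MeasurableSet T := by
    have h1 : Continuous (fun p : ℝ × ℝ => ‖f.eval ((p.1 : ℂ) + p.2 * I)‖) := by fun_prop
    exact (isClosed_eq h1 continuous_const).measurableSet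
  have hpre : {z : ℂ | ‖f.eval z‖ = r} = Complex.measurableEquivRealProd ⁻¹' T := by
    ext z
    simp only [hT, mem_preimage, mem_ofPred_eq, Complex.measurableEquivRealProd_apply]
    rw [Complex.re_add_im]
  rw [hpre, Complex.volume_preserving_equiv_real_prod.measure_preimage hTm.nullMeasurableSet]
  rw [Measure.volume_eq_prod, Measure.measure_prod_null hTm]
  refine Filter.Eventually.of_forall fun x => ?_
  have : Prod.mk x ⁻¹' T = {y : ℝ | ‖f.eval ((x : ℂ) + y * I)‖ = r} := rfl
  simp only [Pi.zero_apply]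
  rw [this]
  exact (ln_section_finite f hn r x).measure_zero _

theorem exists_bound (f : ℂ[X]) (hf : f.Monic) (hn : f.natDegree ≠ 0) :
    ∃ C : ℝ, 0 ≤ C ∧ ∀ s : ℝ, {z : ℂ | ‖f.eval z‖ < Real.exp (f.natDegree * s)} ⊆
      Metric.ball 0 (Real.exp s + C) := by
  have hsplit : f.Splits := IsAlgClosed.splits f
  have hprod : f = (f.roots.map (fun a => X - C a)).prod := by
    exact hsplit.eq_prod_roots_of_monic hf
  have hcard : Multiset.card f.roots = f.natDegree := by
    exact hsplit.natDegree_eq_card_roots.symm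
  refine ⟨(f.roots.map (fun a => ‖a‖)).sum, ?_, ?_⟩
  · exact Multiset.sum_nonneg (by
      intro x hx
      obtain ⟨a, _, rfl⟩ := Multiset.mem_map.mp hx
      exact norm_nonneg a)
  · intro s z hz
    rw [mem_ball_zero_iff]
    by_contra hcon
    rw [not_lt] at hcon
    have hz' : ‖f.eval z‖ < Real.exp (f.natDegree * s) := hz
    have heval : ‖f.eval z‖ = (f.roots.map (fun a => ‖z - a‖)).prod := by
      conv_lhs => rw [hprod]
      rw [eval_multiset_prod, Multiset.map_map]
      generalize f.roots = m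
      induction m using Multiset.induction_on with
      | empty => simp
      | cons a m ih =>
        rw [Multiset.map_cons, Multiset.map_cons, Multiset.prod_cons, Multiset.prod_cons, norm_mul,
          ih, Function.comp_apply, eval_sub, eval_X, eval_C]
    have hge : ∀ a ∈ f.roots, Real.exp s ≤ ‖z - a‖ := by
      intro a ha
      have h1 : ‖a‖ ≤ (f.roots.map (fun a => ‖a‖)).sum := by
        exact Multiset.single_le_sum (by
          intro x hx
          obtain ⟨a, _, rfl⟩ := Multiset.mem_map.mp hx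
          exact norm_nonneg a) _ (Multiset.mem_map_of_mem _ ha)
      have h2 : ‖z‖ - ‖a‖ ≤ ‖z - a‖ := norm_sub_norm_le z a
      linarith
    have hpow : Real.exp (f.natDegree * s) = Real.exp s ^ (Multiset.card f.roots) := by
      rw [hcard, ← Real.exp_nat_mul]
    have hall : ∀ m : Multiset ℂ, (∀ a ∈ m, Real.exp s ≤ ‖z - a‖) →
        Real.exp s ^ (Multiset.card m) ≤ (m.map (fun a => ‖z - a‖)).prod := by
      intro m
      induction m using Multiset.induction_on with
      | empty => intro _; simp
      | cons a m ih =>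
        intro hm
        rw [Multiset.card_cons, Multiset.map_cons, Multiset.prod_cons, pow_succ, mul_comm]
        exact mul_le_mul (hm a (Multiset.mem_cons_self a m))
          (ih fun b hb => hm b (Multiset.mem_cons_of_mem hb)) (by positivity) (norm_nonneg _)
    have h5 := hall f.roots hge
    rw [heval, hpow] at hz'
    linarith

theorem sublevel_bounded (f : ℂ[X]) (hf : f.Monic) (hn : f.natDegree ≠ 0) (u : ℝ) :
    Bornology.IsBounded {z : ℂ | ‖f.eval z‖ < Real.exp u} := by
  obtain ⟨C, hC, h⟩ := exists_bound f hf hn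
  have h1 := h (u / f.natDegree)
  have hn' : (f.natDegree : ℝ) ≠ 0 := by exact_mod_cast hn
  rw [mul_div_cancel₀ _ hn'] at h1
  exact Metric.isBounded_ball.subset h1

theorem sublevel_measurable (f : ℂ[X]) (u : ℝ) :
    MeasurableSet {z : ℂ | ‖f.eval z‖ < Real.exp u} := by
  have hcont : Continuous (fun z : ℂ => ‖f.eval z‖) := by fun_prop
  exact (isOpen_lt hcont continuous_const).measurableSet

theorem ln_finite (f : ℂ[X]) (hf : f.Monic) (hn : f.natDegree ≠ 0) (u : ℝ) :
    volume {z : ℂ | ‖f.eval z‖ < Real.exp u} ≠ ⊤ :=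
  (sublevel_bounded f hf hn u).measure_lt_top.ne

theorem area_mono (f : ℂ[X]) (hf : f.Monic) (hn : f.natDegree ≠ 0) : Monotone (area f) := by
  intro u v huv
  unfold area
  refine ENNReal.toReal_mono (ln_finite f hf hn v) (measure_mono ?_)
  intro z hz
  exact lt_of_lt_of_le hz (Real.exp_le_exp.mpr huv)

theorem area_le (f : ℂ[X]) (hf : f.Monic) (hn : f.natDegree ≠ 0) :
    ∃ C : ℝ, 0 ≤ C ∧ ∀ s : ℝ, area f (f.natDegree * s) ≤ π * (Real.exp s + C) ^ 2 := by
  obtain ⟨C, hC, h⟩ := exists_bound f hf hn
  refine ⟨C, hC, fun s => ?_⟩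
  have hpos : 0 ≤ Real.exp s + C := by positivity
  have h1 : volume {z : ℂ | ‖f.eval z‖ < Real.exp (f.natDegree * s)} ≤
      volume (Metric.ball (0 : ℂ) (Real.exp s + C)) := measure_mono (h s)
  have h2 : (volume (Metric.ball (0 : ℂ) (Real.exp s + C))).toReal = π * (Real.exp s + C) ^ 2 := by
    rw [Complex.volume_ball]
    rw [ENNReal.toReal_mul, ENNReal.toReal_pow, ENNReal.toReal_ofReal hpos]
    simp [NNReal.coe_real_pi, mul_comm]
  unfold area
  rw [← h2]
  exact ENNReal.toReal_mono (by
    exact (Metric.isBounded_ball.measure_lt_top).ne) h1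

end Pool.Agent.H88.LD
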