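import Pool.Agent.H88.LD.BI

/-!
# LD-FI: signed area = area (Fubini)

PROOF. Choose `B > 0` with `U ⊆ ball 0 B` and `‖F i φ‖ < B` for all `i`, `φ ∈ [0, 2π]`. Integrate the
hypothesis over `z ∈ ball 0 B`: the right side gives `2πi vol(U)`. The left side is
`∑ i, ∫_{z ∈ ball 0 B} ∫_0^{2π} F' i φ/(F i φ - z) dφ dz = ∑ i, ∫_0^{2π} F' i φ (∫_{z ∈ ball 0 B} (F i φ - z)⁻¹ dz) dφ
= π ∑ i, ∫_0^{2π} F' i φ conj (F i φ) dφ` by Fubini (`MeasureTheory.integral_integral_swap`;
product integrability from `integrableOn_inv`, `integral_norm_inv_le` and boundedness of `F'` on `[0,2π]`,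
`MeasureTheory.integrable_prod_iff`) and `ball_cauchy`. So `∑ i, ∫ conj (F i) F' i = 2i vol(U)`, take the
imaginary part.
-/

set_option autoImplicit false

open Polynomial Complex MeasureTheory Set
open scoped Real ComplexConjugate

noncomputable section

namespace Pool.Agent.H88.LD

private theorem fi_one (F F' : ℝ → ℂ) (hF : Continuous F) (hF' : Continuous F') (B : ℝ)
    (hB : 0 < B) (hFB : ∀ φ ∈ Icc (0 : ℝ) (2 * π), ‖F φ‖ < B) :
    Integrable (fun z : ℂ => ∫ φ in (0 : ℝ)..(2 * π), F' φ / (F φ - z))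
      (volume.restrict (Metric.ball (0 : ℂ) B)) ∧
    ∫ z in Metric.ball (0 : ℂ) B, ∫ φ in (0 : ℝ)..(2 * π), F' φ / (F φ - z) =
      ∫ φ in (0 : ℝ)..(2 * π), F' φ * (π * conj (F φ)) := by
  have h2π : (0 : ℝ) ≤ 2 * π := by positivity
  obtain ⟨C, hC⟩ := isCompact_Icc.exists_bound_of_continuousOn
    (s := Icc (0 : ℝ) (2 * π)) hF'.continuousOn
  have hm : Measurable (fun p : ℝ × ℂ => F' p.1 / (F p.1 - p.2)) :=
    (hF'.measurable.comp measurable_fst).div
      ((hF.measurable.comp measurable_fst).sub measurable_snd)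
  have hI : Integrable (fun p : ℝ × ℂ => F' p.1 / (F p.1 - p.2))
      ((volume.restrict (Ioc (0 : ℝ) (2 * π))).prod (volume.restrict (Metric.ball (0 : ℂ) B))) := by
    rw [integrable_prod_iff hm.aestronglyMeasurable]
    constructor
    · refine Filter.Eventually.of_forall fun φ => ?_
      simp only [div_eq_mul_inv]
      exact (integrableOn_inv B (F φ)).const_mul _
    · refine Integrable.mono' (g := fun _ => C * (4 * π * B)) (integrable_const _) ?_ ?_
      · exact hm.aestronglyMeasurable.norm.integral_prod_right'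
      · refine (ae_restrict_iff' measurableSet_Ioc).2 (Filter.Eventually.of_forall fun φ hφ => ?_)
        have hφ' : φ ∈ Icc (0 : ℝ) (2 * π) := ⟨hφ.1.le, hφ.2⟩
        rw [Real.norm_of_nonneg (integral_nonneg fun _ => norm_nonneg _)]
        have h1 : ∀ z, ‖F' φ / (F φ - z)‖ = ‖F' φ‖ * ‖(F φ - z)⁻¹‖ := by
          intro z
          rw [div_eq_mul_inv, norm_mul]
        simp only [h1]
        rw [integral_const_mul]
        exact mul_le_mul (hC φ hφ') (integral_norm_inv_le B hB _ (hFB φ hφ'))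
          (integral_nonneg fun _ => norm_nonneg _) ((norm_nonneg _).trans (hC φ hφ'))
  constructor
  · have h3 := hI.integral_prod_right
    simpa [intervalIntegral.integral_of_le h2π] using h3
  · simp only [intervalIntegral.integral_of_le h2π]
    rw [← integral_integral_swap (f := fun (φ : ℝ) (z : ℂ) => F' φ / (F φ - z)) hI]
    refine setIntegral_congr_fun measurableSet_Ioc fun φ hφ => ?_
    have hφ' : φ ∈ Icc (0 : ℝ) (2 * π) := ⟨hφ.1.le, hφ.2⟩
    simp only [div_eq_mul_inv]
    rw [integral_const_mul, ball_cauchy B _ (hFB φ hφ')]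

private theorem fi_bound {n : ℕ} (S : ArcSys n) (U : Set ℂ) (hb : Bornology.IsBounded U) :
    ∃ B : ℝ, 0 < B ∧ U ⊆ Metric.ball 0 B ∧ ∀ i, ∀ φ ∈ Icc (0 : ℝ) (2 * π), ‖S.F i φ‖ < B := by
  have hc : ∀ i, ∃ C : ℝ, ∀ φ ∈ Icc (0 : ℝ) (2 * π), ‖S.F i φ‖ ≤ C := by
    intro i
    have hF : Continuous (S.F i) :=
      continuous_iff_continuousAt.2 fun φ => (S.hasDeriv i φ).continuousAt
    exact isCompact_Icc.exists_bound_of_continuousOn hF.continuousOn
  choose C hC using hc
  obtain ⟨R, hR⟩ := hb.subset_ball (0 : ℂ)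
  refine ⟨|R| + (∑ i, |C i|) + 1, by positivity, hR.trans (Metric.ball_subset_ball ?_), ?_⟩
  · have h1 : 0 ≤ ∑ i, |C i| := Finset.sum_nonneg fun _ _ => abs_nonneg _
    linarith [le_abs_self R]
  · intro i φ hφ
    have h1 : |C i| ≤ ∑ i, |C i| :=
      Finset.single_le_sum (f := fun i => |C i|) (fun _ _ => abs_nonneg _) (Finset.mem_univ i)
    linarith [hC i φ hφ, le_abs_self (C i), abs_nonneg R]

theorem area_of_wind {n : ℕ} (S : ArcSys n) (U : Set ℂ) (hU : MeasurableSet U)
    (hb : Bornology.IsBounded U)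
    (h : ∀ᵐ z : ℂ, z ∈ U → S.wind z = 2 * π * I) (h' : ∀ᵐ z : ℂ, z ∉ U → S.wind z = 0) :
    S.sarea = (volume U).toReal := by
  obtain ⟨B, hB, hUB, hFB⟩ := fi_bound S U hb
  have hF : ∀ i, Continuous (S.F i) := fun i =>
    continuous_iff_continuousAt.2 fun φ => (S.hasDeriv i φ).continuousAt
  have h1 := fun i => fi_one (S.F i) (S.F' i) (hF i) (S.cont i) B hB (hFB i)
  have h2 : ∫ z in Metric.ball (0 : ℂ) B, S.wind z =
      ∑ i, ∫ φ in (0 : ℝ)..(2 * π), S.F' i φ * (π * conj (S.F i φ)) := by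
    unfold ArcSys.wind
    rw [integral_finsetSum _ fun i _ => (h1 i).1]
    exact Finset.sum_congr rfl fun i _ => (h1 i).2
  have h3 : ∫ z in Metric.ball (0 : ℂ) B, S.wind z = (volume U).toReal * (2 * π * I) := by
    have h4 : ∀ᵐ z ∂(volume.restrict (Metric.ball (0 : ℂ) B)),
        S.wind z = U.indicator (fun _ => (2 * π * I : ℂ)) z := by
      refine ae_restrict_of_ae ?_
      filter_upwards [h, h'] with z hz hz'
      by_cases hzU : z ∈ U
      · rw [Set.indicator_of_mem hzU, hz hzU]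
      · rw [Set.indicator_of_notMem hzU, hz' hzU]
    rw [integral_congr_ae h4, setIntegral_indicator hU, Set.inter_eq_self_of_subset_right hUB,
      setIntegral_const]
    simp [Measure.real]
  have h5 : ∀ i, (∫ φ in (0 : ℝ)..(2 * π), S.F' i φ * (π * conj (S.F i φ))).im =
      π * ∫ φ in (0 : ℝ)..(2 * π), (conj (S.F i φ) * S.F' i φ).im := by
    intro i
    have hc : Continuous fun φ => S.F' i φ * (π * conj (S.F i φ)) :=
      (S.cont i).mul (continuous_const.mul (Complex.continuous_conj.comp (hF i)))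
    have h6 := Complex.imCLM.intervalIntegral_comp_comm
      (hc.intervalIntegrable (μ := volume) 0 (2 * π))
    simp only [Complex.imCLM_apply] at h6
    rw [← h6, ← intervalIntegral.integral_const_mul]
    refine intervalIntegral.integral_congr fun φ _ => ?_
    have h7 : S.F' i φ * (π * conj (S.F i φ)) = (π : ℂ) * (conj (S.F i φ) * S.F' i φ) := by ring
    simp only [h7, Complex.im_ofReal_mul]
  have h8 : (π * ∑ i, ∫ φ in (0 : ℝ)..(2 * π), (conj (S.F i φ) * S.F' i φ).im) =
      (volume U).toReal * (2 * π) := by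
    have h9 := congrArg Complex.im (h2.symm.trans h3)
    rw [Complex.im_sum] at h9
    simp only [h5] at h9
    rw [← Finset.mul_sum] at h9
    rw [h9]
    simp
  unfold ArcSys.sarea
  have hπ : (π : ℝ) ≠ 0 := Real.pi_ne_zero
  have h10 : (∑ i, ∫ φ in (0 : ℝ)..(2 * π), (conj (S.F i φ) * S.F' i φ).im) =
      (volume U).toReal * 2 := by
    apply mul_left_cancel₀ hπ
    linarith
  rw [h10]
  ring

end Pool.Agent.H88.LD
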