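import Pool.Agent.H88.LD.WN
import Pool.Agent.H88.LD.FI
import Pool.Agent.H88.LD.LN

/-!
# LD-AR: the signed area of the level curve is the area of the sublevel set

PROOF: `area_of_wind` with `U = {z | ‖f.eval z‖ < e^u}`, `wind_lifts` for `z` outside of the null set
`{‖f.eval z‖ = e^u}` (`level_null`), `sublevel_bounded`, `sublevel_measurable`.
-/

set_option autoImplicit false

open Polynomial Complex MeasureTheory Set
open scoped Real ComplexConjugate

noncomputable section

namespace Pool.Agent.H88.LD

theorem sarea_eq {f : ℂ[X]} {n : ℕ} {a b : ℝ} (hf : f.Monic) (hn : f.natDegree = n) (hn0 : 0 < n)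
    (L : Lifts f n a b) (u : ℝ) (hu : u ∈ Ioo a b) : (L.arc u hu).sarea = area f u := by
  have hn' : f.natDegree ≠ 0 := by omega
  have hae : ∀ᵐ z : ℂ, ‖f.eval z‖ ≠ Real.exp u := by
    rw [ae_iff]
    simpa using level_null f hf hn' (Real.exp u)
  have key := area_of_wind (L.arc u hu) {z : ℂ | ‖f.eval z‖ < Real.exp u}
    (sublevel_measurable f u) (sublevel_bounded f hf hn' u) (by
      filter_upwards [hae] with z hz hzU
      rw [wind_lifts hf hn hn0 L u hu z hz]
      exact if_pos hzU) (by
      filter_upwards [hae] with z hz hzU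
      rw [wind_lifts hf hn hn0 L u hu z hz]
      exact if_neg hzU)
  exact key

end Pool.Agent.H88.LD
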