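import Pool.Agent.H88.LD.Defs

/-!
# LD-BI: integrals of `1/(ζ - z)` over discs

PROOF of `integrableOn_inv`, `integral_norm_inv_le`: translation `z = ζ - v`; `ball 0 B ⊆ ball ζ (2B)`, and
`∫_{‖v‖ < 2B} ‖v‖⁻¹ = ∫_0^{2B} ∫_0^{2π} r⁻¹ r dθ dr = 4πB` (polar coordinates,
`Complex.integral_comp_polarCoord_symm`, `Complex.lintegral_comp_polarCoord_symm`; integrability of
`‖v‖⁻¹` near `0` in the plane is perhaps in Mathlib).

PROOF of `ball_cauchy`: polar coordinates around `0`:
`∫_{ball 0 B} (ζ - z)⁻¹ = ∫_0^B r (∫_{-π}^{π} (ζ - r e^{iθ})⁻¹ dθ) dr`. The inner integral is `2π/ζ` if `r < ‖ζ‖`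
and `0` if `r > ‖ζ‖` (it is `∮ (i z)⁻¹ (ζ - z)⁻¹ dz` over `C(0,r)`, `(z (ζ - z))⁻¹ = ζ⁻¹ (z⁻¹ + (ζ - z)⁻¹)`,
`circleIntegral.integral_sub_inv_of_mem_ball` and Cauchy's theorem; the value `r = ‖ζ‖` is a null set).
So the integral is `(2π/ζ) ‖ζ‖²/2 = π conj ζ` (for `ζ = 0` all inner integrals are `0`).
-/

set_option autoImplicit false

open Polynomial Complex MeasureTheory Set
open scoped Real ComplexConjugate

noncomputable section

namespace Pool.Agent.H88.LD

private lemma bi_symm (p : ℝ × ℝ) : Complex.polarCoord.symm p = circleMap 0 p.1 p.2 := by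
  rw [Complex.polarCoord_symm_apply, circleMap_zero, Complex.exp_mul_I]
  push_cast
  ring

section Polar

variable {E : Type*} [NormedAddCommGroup E] [NormedSpace ℝ E]

/-- shifting the interval of angles -/
private lemma bi_angle (g : ℂ → E) (r : ℝ) :
    ∫ θ in Ioo (-Real.pi) Real.pi, g (circleMap 0 r θ) =
      (2 * Real.pi) • Real.circleAverage g 0 r := by
  have hper : Function.Periodic (fun θ => g (circleMap 0 r θ)) (2 * Real.pi) := fun θ => by
    simp only [periodic_circleMap 0 r θ]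
  rw [Real.circleAverage_def, smul_smul, mul_inv_cancel₀ (by positivity), one_smul,
    ← integral_Ioc_eq_integral_Ioo, ← intervalIntegral.integral_of_le (by linarith [Real.pi_pos])]
  have h := hper.intervalIntegral_add_eq (-Real.pi) 0
  rw [show -Real.pi + 2 * Real.pi = Real.pi by ring, zero_add] at h
  exact h

/-- Polar coordinates for integrable functions. -/
private lemma bi_polar (f : ℂ → E) (hf : StronglyMeasurable f) (s : ℝ)
    (hi : IntegrableOn f (Metric.ball (0 : ℂ) s)) :
    ∫ z in Metric.ball (0 : ℂ) s, f z =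
      ∫ r in Ioo (0 : ℝ) s, (2 * Real.pi * r) • Real.circleAverage f 0 r := by
  have hmap : Measurable (fun x : ℝ × ℝ => circleMap 0 x.1 x.2) := by
    have : Continuous (fun x : ℝ × ℝ => circleMap 0 x.1 x.2) := by
      unfold circleMap
      fun_prop
    exact this.measurable
  rw [← integral_indicator measurableSet_ball, ← Complex.integral_comp_polarCoord_symm,
    polarCoord_target, Measure.volume_eq_prod, setIntegral_prod]
  · have : ∀ x ∈ Ioi (0 : ℝ), (∫ y in Ioo (-Real.pi) Real.pi,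
        ((x, y) : ℝ × ℝ).1 • (Metric.ball (0 : ℂ) s).indicator (fun z => f z)
          (Complex.polarCoord.symm (x, y))) =
        (Iio s).indicator (fun r => (2 * Real.pi * r) • Real.circleAverage f 0 r) x := by
      intro x hx
      simp only [bi_symm]
      rw [integral_smul, bi_angle ((Metric.ball (0 : ℂ) s).indicator (fun z => f z))]
      by_cases hxs : x < s
      · rw [indicator_of_mem (show x ∈ Iio s from hxs)]
        have : Real.circleAverage ((Metric.ball (0 : ℂ) s).indicator (fun z => f z)) 0 x =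
            Real.circleAverage f 0 x := by
          apply Real.circleAverage_congr_sphere
          intro z hz
          rw [indicator_of_mem]
          simp only [mem_sphere_iff_norm, sub_zero] at hz
          simp [hz, abs_of_pos (show (0:ℝ) < x from hx), hxs]
        rw [this, smul_smul]
        congr 1
        ring
      · rw [indicator_of_notMem (by simpa using hxs)]
        have : Real.circleAverage ((Metric.ball (0 : ℂ) s).indicator (fun z => f z)) 0 x =
            Real.circleAverage (fun _ => (0:E)) 0 x := by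
          apply Real.circleAverage_congr_sphere
          intro z hz
          rw [indicator_of_notMem]
          simp only [mem_sphere_iff_norm, sub_zero] at hz
          simp [hz, abs_of_pos (show (0:ℝ) < x from hx)]
          linarith
        rw [this, Real.circleAverage_def]; simp
    rw [setIntegral_congr_fun measurableSet_Ioi this, integral_indicator measurableSet_Iio,
      Measure.restrict_restrict measurableSet_Iio]
    congr 2
    ext x; simp [and_comm]
  · have hm : StronglyMeasurable (fun z : ℝ × ℝ => z.1 •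
        (Metric.ball (0 : ℂ) s).indicator (fun z => f z) (Complex.polarCoord.symm z)) := by
      simp only [bi_symm]
      exact measurable_fst.stronglyMeasurable.smul
        ((hf.indicator measurableSet_ball).comp_measurable hmap)
    refine ⟨hm.aestronglyMeasurable, ?_⟩
    have h2 := hi.2
    unfold HasFiniteIntegral at h2 ⊢
    rw [← lintegral_indicator measurableSet_ball, ← Complex.lintegral_comp_polarCoord_symm,
      polarCoord_target, Measure.volume_eq_prod] at h2
    refine lt_of_le_of_lt ?_ h2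
    apply setLIntegral_mono' (measurableSet_Ioi.prod measurableSet_Ioo)
    rintro ⟨x, y⟩ ⟨hx, hy⟩
    simp only [mem_Ioi] at hx
    simp only [enorm_smul, smul_eq_mul]
    have : ‖x‖ₑ = ENNReal.ofReal x := by
      rw [Real.enorm_eq_ofReal hx.le]
    rw [this]
    gcongr
    rw [enorm_indicator_eq_indicator_enorm]

end Polar

private lemma bi_int0 (R : ℝ) : IntegrableOn (fun z : ℂ => z⁻¹) (Metric.ball (0:ℂ) R) := by
  have h1 : IntegrableOn (fun x : ℂ => (fun y : ℝ => y⁻¹) ‖x‖) (Metric.ball (0 : ℂ) R)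
      volume := by
    rw [integrableOn_fun_norm_addHaar (μ := (volume : Measure ℂ)) (f := fun y : ℝ => y⁻¹)]
    rw [Complex.finrank_real_complex]
    have : IntegrableOn (fun _ : ℝ => (1:ℝ)) (Ioo 0 R) volume := by
      rw [integrableOn_const_iff]
      right
      rw [Real.volume_Ioo]
      exact ENNReal.ofReal_lt_top
    refine this.congr_fun ?_ measurableSet_Ioo
    intro y hy
    have hy0 : y ≠ 0 := hy.1.ne'
    simp [hy0]
  refine Integrable.mono' h1 ?_ ?_
  · apply Measurable.aestronglyMeasurable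
    fun_prop
  · refine Filter.Eventually.of_forall fun x => ?_
    rw [norm_inv]

private lemma bi_norm0 (R : ℝ) (hR : 0 < R) :
    ∫ z in Metric.ball (0 : ℂ) R, ‖z⁻¹‖ = 2 * π * R := by
  rw [bi_polar (fun z : ℂ => ‖z⁻¹‖) (by
    apply Measurable.stronglyMeasurable; fun_prop) R (bi_int0 R).norm]
  have h : ∀ r ∈ Ioo (0 : ℝ) R,
      (2 * Real.pi * r) • Real.circleAverage (fun z : ℂ => ‖z⁻¹‖) 0 r = 2 * π := by
    intro r hr
    have h1 : Real.circleAverage (fun z : ℂ => ‖z⁻¹‖) 0 r =
        Real.circleAverage (fun _ => r⁻¹) 0 r := by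
      apply Real.circleAverage_congr_sphere
      intro z hz
      simp only [mem_sphere_iff_norm, sub_zero] at hz
      simp [hz, abs_of_pos hr.1]
    rw [h1, Real.circleAverage_const, smul_eq_mul]
    have := hr.1.ne'
    field_simp
  rw [setIntegral_congr_fun measurableSet_Ioo h, setIntegral_const]
  simp [Real.volume_real_Ioo_of_le hR.le]
  ring

private lemma bi_pre (ζ : ℂ) (R : ℝ) :
    (fun z : ℂ => ζ - z) ⁻¹' Metric.ball (0 : ℂ) R = Metric.ball ζ R := by
  ext z
  simp [Metric.mem_ball, dist_eq_norm, norm_sub_rev]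

private lemma bi_intζ (ζ : ℂ) (R : ℝ) :
    IntegrableOn (fun z : ℂ => (ζ - z)⁻¹) (Metric.ball ζ R) := by
  have h := (Measure.measurePreserving_sub_left (volume : Measure ℂ) ζ).integrableOn_comp_preimage
    (MeasurableEquiv.subLeft ζ).measurableEmbedding (f := fun z : ℂ => z⁻¹)
    (s := Metric.ball (0 : ℂ) R)
  rw [bi_pre] at h
  exact h.2 (bi_int0 R)

theorem integrableOn_inv (B : ℝ) (ζ : ℂ) :
    IntegrableOn (fun z : ℂ => (ζ - z)⁻¹) (Metric.ball 0 B) := by
  refine (bi_intζ ζ (B + ‖ζ‖)).mono_set ?_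
  intro z hz
  rw [Metric.mem_ball, dist_eq_norm] at hz ⊢
  rw [sub_zero] at hz
  calc ‖z - ζ‖ ≤ ‖z‖ + ‖ζ‖ := norm_sub_le _ _
    _ < B + ‖ζ‖ := by linarith

theorem integral_norm_inv_le (B : ℝ) (hB : 0 < B) (ζ : ℂ) (hζ : ‖ζ‖ < B) :
    ∫ z in Metric.ball (0 : ℂ) B, ‖(ζ - z)⁻¹‖ ≤ 4 * π * B := by
  have hsub : Metric.ball (0 : ℂ) B ⊆ Metric.ball ζ (2 * B) := by
    intro z hz
    rw [Metric.mem_ball, dist_eq_norm] at hz ⊢
    rw [sub_zero] at hz
    calc ‖z - ζ‖ ≤ ‖z‖ + ‖ζ‖ := norm_sub_le _ _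
      _ < 2 * B := by linarith
  have h1 : ∫ z in Metric.ball (0 : ℂ) B, ‖(ζ - z)⁻¹‖ ≤
      ∫ z in Metric.ball ζ (2 * B), ‖(ζ - z)⁻¹‖ := by
    apply setIntegral_mono_set (bi_intζ ζ (2 * B)).norm
    · exact Filter.Eventually.of_forall fun z => norm_nonneg _
    · exact hsub.eventuallyLE
  have h2 : ∫ z in Metric.ball ζ (2 * B), ‖(ζ - z)⁻¹‖ =
      ∫ z in Metric.ball (0 : ℂ) (2 * B), ‖z⁻¹‖ := by
    have h := (Measure.measurePreserving_sub_left (volume : Measure ℂ) ζ).setIntegral_preimage_emb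
      (MeasurableEquiv.subLeft ζ).measurableEmbedding (fun z : ℂ => ‖z⁻¹‖)
      (Metric.ball (0 : ℂ) (2 * B))
    rw [bi_pre] at h
    exact h
  rw [h2, bi_norm0 (2 * B) (by linarith)] at h1
  linarith

/-- the mean over a circle inside -/
private lemma bi_in (ζ : ℂ) (r : ℝ) (hr : 0 < r) (h : r < ‖ζ‖) :
    Real.circleAverage (fun z : ℂ => (ζ - z)⁻¹) 0 r = ζ⁻¹ := by
  have hd : DifferentiableOn ℂ (fun z : ℂ => (ζ - z)⁻¹) (Metric.closedBall 0 |r|) := by
    intro z hz
    apply DifferentiableAt.differentiableWithinAt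
    have hne : ζ - z ≠ 0 := by
      intro h0
      rw [sub_eq_zero] at h0
      rw [mem_closedBall_zero_iff, abs_of_pos hr, ← h0] at hz
      linarith
    fun_prop (disch := exact hne)
  rw [DiffContOnCl.circleAverage (hd.diffContOnCl_ball Subset.rfl)]
  simp

/-- the mean over a circle outside -/
private lemma bi_out (ζ : ℂ) (r : ℝ) (hr : 0 < r) (h : ‖ζ‖ < r) :
    Real.circleAverage (fun z : ℂ => (ζ - z)⁻¹) 0 r = 0 := by
  have hne : ∀ z ∈ Metric.closedBall (0:ℂ) |r|, conj ζ * z - (r : ℂ) ^ 2 ≠ 0 := by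
    intro z hz h0
    rw [mem_closedBall_zero_iff, abs_of_pos hr] at hz
    rw [sub_eq_zero] at h0
    have h1 : ‖conj ζ * z‖ = r ^ 2 := by
      rw [h0, norm_pow, Complex.norm_real, Real.norm_of_nonneg hr.le]
    rw [norm_mul, RCLike.norm_conj] at h1
    have h2 : ‖ζ‖ * ‖z‖ ≤ ‖ζ‖ * r := by gcongr
    nlinarith
  have hd : DifferentiableOn ℂ (fun z : ℂ => z * (conj ζ * z - (r : ℂ) ^ 2)⁻¹)
      (Metric.closedBall 0 |r|) := by
    intro z hz
    apply DifferentiableAt.differentiableWithinAt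
    fun_prop (disch := exact hne z hz)
  have h1 := DiffContOnCl.circleAverage (hd.diffContOnCl_ball Subset.rfl)
  have h2 : Real.circleAverage (fun z : ℂ => (ζ - z)⁻¹) 0 r =
      Real.circleAverage (fun z : ℂ =>
        Complex.conjCLE (z * (conj ζ * z - (r : ℂ) ^ 2)⁻¹)) 0 r := by
    apply Real.circleAverage_congr_sphere
    intro z hz
    simp only [mem_sphere_iff_norm, sub_zero] at hz
    rw [abs_of_pos hr] at hz
    have hz0 : z ≠ 0 := by
      intro h0; rw [h0, norm_zero] at hz; linarith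
    have hzz : z * conj z = (r : ℂ) ^ 2 := by
      rw [Complex.mul_conj, Complex.normSq_eq_norm_sq, hz]; push_cast; ring
    simp only [Complex.conjCLE_apply, map_mul, map_inv₀, map_sub, map_pow, Complex.conj_conj,
      Complex.conj_ofReal]
    rw [← hzz]
    have hc0 : conj z ≠ 0 := by
      intro h0
      apply hz0
      have := congrArg conj h0
      simpa using this
    rw [show ζ * conj z - z * conj z = (ζ - z) * conj z by ring, mul_inv, mul_comm (conj z),
      mul_assoc, inv_mul_cancel₀ hc0, mul_one]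
  have hci : CircleIntegrable (fun z : ℂ => z * (conj ζ * z - (r : ℂ) ^ 2)⁻¹) 0 r := by
    apply ContinuousOn.circleIntegrable'
    exact hd.continuousOn.mono Metric.sphere_subset_closedBall
  have h3 := (Complex.conjCLE : ℂ →L[ℝ] ℂ).circleAverage_comp_comm hci
  rw [h2]
  have h4 : Real.circleAverage (fun z : ℂ =>
        Complex.conjCLE (z * (conj ζ * z - (r : ℂ) ^ 2)⁻¹)) 0 r =
      Complex.conjCLE (Real.circleAverage (fun z : ℂ => z * (conj ζ * z - (r : ℂ) ^ 2)⁻¹) 0 r) :=
    h3
  rw [h4, h1]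
  simp

theorem ball_cauchy (B : ℝ) (ζ : ℂ) (hζ : ‖ζ‖ < B) :
    ∫ z in Metric.ball (0 : ℂ) B, (ζ - z)⁻¹ = π * conj ζ := by
  rw [bi_polar (fun z : ℂ => (ζ - z)⁻¹) (by
    apply Measurable.stronglyMeasurable; fun_prop) B (integrableOn_inv B ζ)]
  have hB : 0 < B := lt_of_le_of_lt (norm_nonneg _) hζ
  have h1 : ∫ r in Ioo (0 : ℝ) B,
      (2 * Real.pi * r) • Real.circleAverage (fun z : ℂ => (ζ - z)⁻¹) 0 r =
      ∫ r in Ioo (0 : ℝ) B, (Ioo (0:ℝ) ‖ζ‖).indicator (fun r : ℝ => (2 * Real.pi * r) • ζ⁻¹) r := by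
    apply setIntegral_congr_ae measurableSet_Ioo
    have h0 : ∀ᵐ r : ℝ, r ≠ ‖ζ‖ := by
      have : (volume : Measure ℝ) {‖ζ‖} = 0 := by simp
      exact compl_mem_ae_iff.2 this
    filter_upwards [h0] with r hr hr2
    rcases lt_or_gt_of_ne hr with h | h
    · rw [indicator_of_mem (show r ∈ Ioo (0:ℝ) ‖ζ‖ from ⟨hr2.1, h⟩), bi_in ζ r hr2.1 h]
    · rw [indicator_of_notMem (fun h' => by have := h'.2; linarith), bi_out ζ r hr2.1 h,
        smul_zero]
  rw [h1, setIntegral_indicator measurableSet_Ioo]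
  have h2 : Ioo (0:ℝ) B ∩ Ioo 0 ‖ζ‖ = Ioo 0 ‖ζ‖ := by
    ext r
    simp only [mem_inter_iff, mem_Ioo]
    constructor
    · rintro ⟨_, h⟩; exact h
    · intro h; exact ⟨⟨h.1, by linarith [h.2]⟩, h⟩
  rw [h2, integral_smul_const]
  have h3 : ∫ r in Ioo (0:ℝ) ‖ζ‖, 2 * π * r = π * ‖ζ‖ ^ 2 := by
    rw [← integral_Ioc_eq_integral_Ioo, ← intervalIntegral.integral_of_le (norm_nonneg _),
      intervalIntegral.integral_const_mul, integral_id]
    ring
  rw [h3]
  by_cases h0 : ζ = 0
  · simp [h0]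
  · rw [Complex.real_smul]
    push_cast
    rw [mul_assoc, ← Complex.conj_mul', mul_assoc, mul_inv_cancel₀ h0, mul_one]

end Pool.Agent.H88.LD
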