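import Pool.Agent.H88.LD.Defs

/-!
# LD-BP: the balanced point

PROOF. For `τ ∈ [0,T]` put `m τ = (F 0 + F τ)/2`,
`R₁ τ = sup_{v ∈ [0,1]} ‖F (v τ) - m τ‖`, `R₂ τ = sup_{v ∈ [0,1]} ‖F (τ + v (T - τ)) - m τ‖`.
Both are continuous in `τ` (sup over a compact set of a jointly continuous function,
`IsCompact.continuous_sSup`), and attained. `R₁ 0 = ‖F 0 - F 0‖ = 0 ≤ R₂ 0`,
`R₂ T = ‖F T - (F 0 + F T)/2‖ = 0 ≤ R₁ T` (as `F T = F 0`). By the intermediate value theorem for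
`R₁ - R₂` there is `τ` with `R₁ τ = R₂ τ =: R`. The points of `[0,τ]` are the `v τ`, those of `[τ,T]` the
`τ + v (T - τ)`.
-/

set_option autoImplicit false

open Polynomial Complex MeasureTheory Set
open scoped Real ComplexConjugate

noncomputable section

namespace Pool.Agent.H88.LD

theorem balanced_point (F : ℝ → ℂ) (hF : Continuous F) (T : ℝ) (hT : 0 ≤ T) (hper : F T = F 0) :
    ∃ τ ∈ Icc (0 : ℝ) T, ∃ R : ℝ, (∀ t ∈ Icc (0 : ℝ) T, ‖F t - (F 0 + F τ) / 2‖ ≤ R) ∧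
      (∃ t₁ ∈ Icc (0 : ℝ) τ, ‖F t₁ - (F 0 + F τ) / 2‖ = R) ∧
      (∃ t₂ ∈ Icc τ T, ‖F t₂ - (F 0 + F τ) / 2‖ = R) := by
  obtain ⟨g₁, hg₁⟩ : ∃ g₁ : ℝ → ℝ → ℝ, g₁ = fun τ v => ‖F (v * τ) - (F 0 + F τ) / 2‖ := ⟨_, rfl⟩
  obtain ⟨g₂, hg₂⟩ : ∃ g₂ : ℝ → ℝ → ℝ, g₂ = fun τ v =>
      ‖F (τ + v * (T - τ)) - (F 0 + F τ) / 2‖ := ⟨_, rfl⟩
  have hc₁ : Continuous (fun p : ℝ × ℝ => g₁ p.1 p.2) := by
    rw [hg₁]
    fun_prop
  have hc₂ : Continuous (fun p : ℝ × ℝ => g₂ p.1 p.2) := by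
    rw [hg₂]
    fun_prop
  have hcc₁ : ∀ τ, Continuous (g₁ τ) := fun τ =>
    hc₁.comp (Continuous.prodMk continuous_const continuous_id)
  have hcc₂ : ∀ τ, Continuous (g₂ τ) := fun τ =>
    hc₂.comp (Continuous.prodMk continuous_const continuous_id)
  have hne : (Icc (0 : ℝ) 1).Nonempty := ⟨0, left_mem_Icc.2 zero_le_one⟩
  have hS₁ : Continuous (fun τ => sSup (g₁ τ '' Icc (0 : ℝ) 1)) :=
    IsCompact.continuous_sSup isCompact_Icc hc₁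
  have hS₂ : Continuous (fun τ => sSup (g₂ τ '' Icc (0 : ℝ) 1)) :=
    IsCompact.continuous_sSup isCompact_Icc hc₂
  have ha₁ : ∀ τ, ∃ v ∈ Icc (0 : ℝ) 1, sSup (g₁ τ '' Icc (0 : ℝ) 1) = g₁ τ v ∧
      ∀ y ∈ Icc (0 : ℝ) 1, g₁ τ y ≤ g₁ τ v := fun τ =>
    isCompact_Icc.exists_sSup_image_eq_and_ge hne (hcc₁ τ).continuousOn
  have ha₂ : ∀ τ, ∃ v ∈ Icc (0 : ℝ) 1, sSup (g₂ τ '' Icc (0 : ℝ) 1) = g₂ τ v ∧
      ∀ y ∈ Icc (0 : ℝ) 1, g₂ τ y ≤ g₂ τ v := fun τ =>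
    isCompact_Icc.exists_sSup_image_eq_and_ge hne (hcc₂ τ).continuousOn
  have h0 : 0 ∈ Icc (sSup (g₂ T '' Icc (0 : ℝ) 1) - sSup (g₁ T '' Icc (0 : ℝ) 1))
      (sSup (g₂ 0 '' Icc (0 : ℝ) 1) - sSup (g₁ 0 '' Icc (0 : ℝ) 1)) := by
    constructor
    · obtain ⟨v, -, hv, -⟩ := ha₂ T
      obtain ⟨w, -, hw, -⟩ := ha₁ T
      have e1 : g₂ T v = 0 := by
        rw [hg₂]
        simp [hper]
      have e2 : 0 ≤ g₁ T w := by
        rw [hg₁]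
        exact norm_nonneg _
      rw [hv, hw, e1]
      linarith
    · obtain ⟨v, -, hv, -⟩ := ha₁ 0
      obtain ⟨w, -, hw, -⟩ := ha₂ 0
      have e1 : g₁ 0 v = 0 := by
        rw [hg₁]
        simp
      have e2 : 0 ≤ g₂ 0 w := by
        rw [hg₂]
        exact norm_nonneg _
      rw [hv, hw, e1]
      linarith
  obtain ⟨τ, hτ, hτ0⟩ := intermediate_value_Icc' hT (hS₂.sub hS₁).continuousOn h0
  have heq : sSup (g₂ τ '' Icc (0 : ℝ) 1) = sSup (g₁ τ '' Icc (0 : ℝ) 1) := by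
    have : sSup (g₂ τ '' Icc (0 : ℝ) 1) - sSup (g₁ τ '' Icc (0 : ℝ) 1) = 0 := hτ0
    linarith
  obtain ⟨v, hv, hv1, hv2⟩ := ha₁ τ
  obtain ⟨w, hw, hw1, hw2⟩ := ha₂ τ
  have hvw : g₂ τ w = g₁ τ v := by rw [← hw1, heq, hv1]
  refine ⟨τ, hτ, g₁ τ v, ?_, ⟨v * τ, ⟨mul_nonneg hv.1 hτ.1, ?_⟩, ?_⟩,
    ⟨τ + w * (T - τ), ⟨?_, ?_⟩, ?_⟩⟩
  · intro t ht
    rcases le_total t τ with h | h
    · rcases eq_or_lt_of_le hτ.1 with h1 | h1
      · have ht0 : t = 0 := le_antisymm (h1 ▸ h) ht.1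
        have h2 := hv2 0 (left_mem_Icc.2 zero_le_one)
        have h3 : g₁ τ 0 = ‖F t - (F 0 + F τ) / 2‖ := by
          rw [hg₁, ht0]
          simp
        rw [← h3]
        exact h2
      · have h2 := hv2 (t / τ) ⟨div_nonneg ht.1 hτ.1, (div_le_one h1).2 h⟩
        have h3 : g₁ τ (t / τ) = ‖F t - (F 0 + F τ) / 2‖ := by
          rw [hg₁]
          simp only
          rw [div_mul_cancel₀ _ h1.ne']
        rw [← h3]
        exact h2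
    · rw [← hvw]
      rcases eq_or_lt_of_le hτ.2 with h1 | h1
      · have ht0 : t = τ := le_antisymm (by rw [h1]; exact ht.2) h
        have h2 := hw2 0 (left_mem_Icc.2 zero_le_one)
        have h3 : g₂ τ 0 = ‖F t - (F 0 + F τ) / 2‖ := by
          rw [hg₂, ht0]
          simp
        rw [← h3]
        exact h2
      · have h1' : 0 < T - τ := by linarith
        have h2 := hw2 ((t - τ) / (T - τ)) ⟨div_nonneg (by linarith) h1'.le,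
          (div_le_one h1').2 (by linarith [ht.2])⟩
        have h3 : g₂ τ ((t - τ) / (T - τ)) = ‖F t - (F 0 + F τ) / 2‖ := by
          rw [hg₂]
          simp only
          rw [div_mul_cancel₀ _ h1'.ne', add_sub_cancel]
        rw [← h3]
        exact h2
  · exact mul_le_of_le_one_left hτ.1 hv.2
  · rw [hg₁]
  · have := mul_nonneg hw.1 (sub_nonneg.2 hτ.2)
    linarith
  · have := mul_le_of_le_one_left (sub_nonneg.2 hτ.2) hw.2
    linarith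
  · rw [← hvw, hg₂]

end Pool.Agent.H88.LD
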