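import Pool.Agent.H88.LD.Defs

/-!
# LD-CB: calibration

`Psi ρ (x + iy) = - ∫₀ˣ √(1 - t²/ρ²) dt + x y / (2ρ)`.

PROOF of `calib`. Write `G t = x + iy`, `G' t = x' + iy'`. The function `t ↦ Psi ρ (G t)` has derivative
`-√(1 - x²/ρ²) x' + (x' y + x y')/(2ρ)` (fundamental theorem of calculus, the integrand is
continuous). As `(conj (G t) * G' t).im = x y' - y x'`, the difference
`(‖G'‖ - (x y' - y x')/(2ρ)) - (-√(1 - x²/ρ²) x' + (x' y + x y')/(2ρ)) = ‖G'‖ + √(1 - x²/ρ²) x' - (x/ρ) y'`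
is `≥ 0`: `(√(1-x²/ρ²), -x/ρ)` is a unit vector because `|x| ≤ ρ` (Cauchy-Schwarz, `‖G'‖² = x'² + y'²`).
Integrate over `[a,b]` (`intervalIntegral.integral_mono_on`,
`intervalIntegral.integral_eq_sub_of_hasDerivAt`).
-/

set_option autoImplicit false

open Polynomial Complex MeasureTheory Set
open scoped Real ComplexConjugate

noncomputable section

namespace Pool.Agent.H88.LD

/-- the potential of the calibration -/
def Psi (ρ : ℝ) (z : ℂ) : ℝ :=
  -(∫ t in (0 : ℝ)..z.re, √(1 - t ^ 2 / ρ ^ 2)) + z.re * z.im / (2 * ρ)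

theorem calib (ρ : ℝ) (hρ : 0 < ρ) (G G' : ℝ → ℂ) (a b : ℝ) (hab : a ≤ b)
    (hG : ∀ t, HasDerivAt G (G' t) t) (hc : Continuous G')
    (hr : ∀ t ∈ Icc a b, |(G t).re| ≤ ρ) :
    Psi ρ (G b) - Psi ρ (G a) ≤
      ∫ t in a..b, (‖G' t‖ - (conj (G t) * G' t).im / (2 * ρ)) := by
  have hGc : Continuous G := continuous_iff_continuousAt.2 fun t => (hG t).continuousAt
  have hgc : Continuous (fun x : ℝ => √(1 - x ^ 2 / ρ ^ 2)) := by fun_prop
  have hre : ∀ t, HasDerivAt (fun t => (G t).re) (G' t).re t := fun t =>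
    Complex.reCLM.hasFDerivAt.comp_hasDerivAt t (hG t)
  have him : ∀ t, HasDerivAt (fun t => (G t).im) (G' t).im t := fun t =>
    Complex.imCLM.hasFDerivAt.comp_hasDerivAt t (hG t)
  have hD : ∀ t, HasDerivAt (fun t => Psi ρ (G t))
      (-(√(1 - (G t).re ^ 2 / ρ ^ 2) * (G' t).re)
        + ((G' t).re * (G t).im + (G t).re * (G' t).im) / (2 * ρ)) t := by
    intro t
    have h1 : HasDerivAt (fun t => ∫ x in (0 : ℝ)..(G t).re, √(1 - x ^ 2 / ρ ^ 2))
        (√(1 - (G t).re ^ 2 / ρ ^ 2) * (G' t).re) t := by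
      have h0 : HasDerivAt (fun u : ℝ => ∫ x in (0 : ℝ)..u, √(1 - x ^ 2 / ρ ^ 2))
          (√(1 - (G t).re ^ 2 / ρ ^ 2)) (G t).re :=
        (hgc.integral_hasStrictDerivAt 0 (G t).re).hasDerivAt
      exact h0.comp t (hre t)
    have h2 : HasDerivAt (fun t => (G t).re * (G t).im / (2 * ρ))
        (((G' t).re * (G t).im + (G t).re * (G' t).im) / (2 * ρ)) t :=
      ((hre t).mul (him t)).div_const (2 * ρ)
    exact h1.neg.add h2
  have hDc : Continuous (fun t => -(√(1 - (G t).re ^ 2 / ρ ^ 2) * (G' t).re)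
        + ((G' t).re * (G t).im + (G t).re * (G' t).im) / (2 * ρ)) := by
    fun_prop
  have hRc : Continuous (fun t => ‖G' t‖ - (conj (G t) * G' t).im / (2 * ρ)) := by
    fun_prop
  rw [← intervalIntegral.integral_eq_sub_of_hasDerivAt (fun t _ => hD t)
    (hDc.intervalIntegrable a b)]
  refine intervalIntegral.integral_mono_on hab (hDc.intervalIntegrable a b)
    (hRc.intervalIntegrable a b) ?_
  intro t ht
  have hx := hr t ht
  have him2 : (conj (G t) * G' t).im = (G t).re * (G' t).im - (G t).im * (G' t).re := by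
    simp [Complex.mul_im]
    ring
  have hs : (G t).re ^ 2 / ρ ^ 2 ≤ 1 := by
    rw [div_le_one (by positivity)]
    exact sq_le_sq' (by linarith [neg_abs_le (G t).re]) (le_trans (le_abs_self _) hx)
  have hc2 : √(1 - (G t).re ^ 2 / ρ ^ 2) ^ 2 = 1 - (G t).re ^ 2 / ρ ^ 2 :=
    Real.sq_sqrt (by linarith)
  have hn : ‖G' t‖ ^ 2 = (G' t).re ^ 2 + (G' t).im ^ 2 := by
    rw [← Complex.normSq_eq_norm_sq, Complex.normSq_apply]
    ring
  set c := √(1 - (G t).re ^ 2 / ρ ^ 2) with hcdef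
  set s := (G t).re / ρ with hsdef
  have hcs : c ^ 2 + s ^ 2 = 1 := by
    rw [hc2, hsdef, div_pow]
    ring
  have hcs2 : |(c * (G' t).re - s * (G' t).im)| ≤ ‖G' t‖ := by
    refine abs_le_of_sq_le_sq ?_ (norm_nonneg _)
    rw [hn]
    nlinarith [sq_nonneg (c * (G' t).im + s * (G' t).re), hcs]
  have hkey := (abs_le.1 hcs2).1
  have hx' : (G t).re = s * ρ := by
    rw [hsdef]
    field_simp
  rw [him2]
  have e1 : ((G' t).re * (G t).im + (G t).re * (G' t).im) / (2 * ρ)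
      + ((G t).re * (G' t).im - (G t).im * (G' t).re) / (2 * ρ) = s * (G' t).im := by
    rw [hx']
    field_simp
    ring
  linarith

end Pool.Agent.H88.LD
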