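import Pool.Agent.H88.LD.HL
import Pool.Agent.H88.LD.BP

/-!
# LD-CC: the lens inequality for closed curves; winding around points outside the disc

PROOF of `closed_lens`. Take `τ, R` from `balanced_point`, `M = (F 0 + F τ)/2`, `G t = F t - M`, `G' = F'`.
`G τ = - G 0` and `G T = F 0 - M = - G τ`. `half_lens` on `[0,τ]` and on `[τ,T]` and addition:
`∫_0^T (‖F'‖ - Im (conj (F - M) F')/(2ρ)) ≥ 2 ρ W (R/ρ)`. Finally
`∫_0^T Im (conj (F - M) F') = ∫_0^T Im (conj F F') - Im (conj M ∫_0^T F')` and `∫_0^T F' = F T - F 0 = 0`.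

PROOF of `wind_outside`. `z ≠ M`. Put `w t = (F t - z)/(M - z) = 1 + (F t - M)/(M - z)`; for `t ∈ [0,T]`:
`‖w t - 1‖ ≤ R/‖M - z‖ < 1` so `Re (w t) > 0`, `w t ∈ slitPlane`. `t ↦ log (w t)` has derivative
`F' t/(F t - z)` on `[0,T]`; the integral is `log (w T) - log (w 0) = 0` as `F T = F 0`.
-/

set_option autoImplicit false

open Polynomial Complex MeasureTheory Set
open scoped Real ComplexConjugate

noncomputable section

namespace Pool.Agent.H88.LD

theorem closed_lens (F F' : ℝ → ℂ) (hF : ∀ t, HasDerivAt F (F' t) t) (hc : Continuous F')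
    (T : ℝ) (hT : 0 ≤ T) (hper : F T = F 0) :
    ∃ (M : ℂ) (R : ℝ), 0 ≤ R ∧ (∀ t ∈ Icc (0 : ℝ) T, ‖F t - M‖ ≤ R) ∧
      ∀ ρ : ℝ, 0 < ρ → R ≤ ρ →
        2 * ρ * W (R / ρ) ≤ ∫ t in (0 : ℝ)..T, (‖F' t‖ - (conj (F t) * F' t).im / (2 * ρ)) := by
  have hFc : Continuous F := continuous_iff_continuousAt.2 fun t => (hF t).continuousAt
  obtain ⟨τ, hτ, R, hR, ⟨t₁, ht₁, h₁⟩, ⟨t₂, ht₂, h₂⟩⟩ := balanced_point F hFc T hT hper
  obtain ⟨M, hM⟩ : ∃ M : ℂ, M = (F 0 + F τ) / 2 := ⟨_, rfl⟩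
  rw [← hM] at hR h₁ h₂
  refine ⟨M, R, ?_, hR, ?_⟩
  · rw [← h₁]; exact norm_nonneg _
  intro ρ hρ hRρ
  have hG : ∀ t, HasDerivAt (fun t => F t - M) (F' t) t := fun t => (hF t).sub_const M
  have hA := half_lens ρ R hρ hRρ (fun t => F t - M) F' 0 τ hτ.1 hG hc
    (by simp only [hM]; ring) (fun t ht => hR t ⟨ht.1, ht.2.trans hτ.2⟩) t₁ ht₁ h₁
  have hB := half_lens ρ R hρ hRρ (fun t => F t - M) F' τ T hτ.2 hG hc
    (by simp only [hM, hper]; ring) (fun t ht => hR t ⟨hτ.1.trans ht.1, ht.2⟩) t₂ ht₂ h₂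
  have hcont : Continuous fun t => (‖F' t‖ - (conj (F t - M) * F' t).im / (2 * ρ)) := by
    fun_prop
  have hadd := intervalIntegral.integral_add_adjacent_intervals
    (hcont.intervalIntegrable 0 τ) (hcont.intervalIntegrable τ T) (μ := volume)
  have hcont2 : Continuous fun t => (‖F' t‖ - (conj (F t) * F' t).im / (2 * ρ)) := by
    fun_prop
  have hcont3 : Continuous fun t => (conj M * F' t).im / (2 * ρ) := by
    fun_prop
  have hd : ∀ t ∈ uIcc (0 : ℝ) T, HasDerivAt (fun t => (conj M * F t).im / (2 * ρ))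
      ((conj M * F' t).im / (2 * ρ)) t := by
    intro t _
    have h := Complex.imCLM.hasFDerivAt.comp_hasDerivAt t ((hF t).const_mul (conj M))
    exact h.div_const (2 * ρ)
  have hz := intervalIntegral.integral_eq_sub_of_hasDerivAt hd (hcont3.intervalIntegrable 0 T)
  rw [hper, sub_self] at hz
  have hsum : (∫ t in (0 : ℝ)..T, (‖F' t‖ - (conj (F t - M) * F' t).im / (2 * ρ))) =
      (∫ t in (0 : ℝ)..T, (‖F' t‖ - (conj (F t) * F' t).im / (2 * ρ))) +
        ∫ t in (0 : ℝ)..T, (conj M * F' t).im / (2 * ρ) := by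
    rw [← intervalIntegral.integral_add (hcont2.intervalIntegrable 0 T)
      (hcont3.intervalIntegrable 0 T)]
    refine intervalIntegral.integral_congr fun t _ => ?_
    simp only [map_sub, sub_mul, Complex.sub_im]
    ring
  linarith

theorem wind_outside (F F' : ℝ → ℂ) (hF : ∀ t, HasDerivAt F (F' t) t) (hc : Continuous F')
    (T : ℝ) (hT : 0 ≤ T) (hper : F T = F 0) (M z : ℂ) (R : ℝ)
    (hR : ∀ t ∈ Icc (0 : ℝ) T, ‖F t - M‖ ≤ R) (hz : R < ‖z - M‖) :
    ∫ t in (0 : ℝ)..T, F' t / (F t - z) = 0 := by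
  have hR0 : 0 ≤ R := (norm_nonneg _).trans (hR 0 ⟨le_rfl, hT⟩)
  have hzM : 0 < ‖z - M‖ := lt_of_le_of_lt hR0 hz
  have hMz : M - z ≠ 0 := by
    intro h
    rw [← neg_sub, h, neg_zero, norm_zero] at hzM
    exact lt_irrefl _ hzM
  have hn : ‖M - z‖ = ‖z - M‖ := norm_sub_rev _ _
  have hslit : ∀ t ∈ Icc (0 : ℝ) T, (F t - z) / (M - z) ∈ slitPlane := by
    intro t ht
    have h1 : (F t - z) / (M - z) = 1 + (F t - M) / (M - z) := by
      field_simp
      ring
    rw [h1]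
    refine Complex.mem_slitPlane_of_norm_lt_one ?_
    rw [norm_div, hn, div_lt_one hzM]
    exact lt_of_le_of_lt (hR t ht) hz
  have hd : ∀ t ∈ uIcc (0 : ℝ) T, HasDerivAt (fun t => Complex.log ((F t - z) / (M - z)))
      (F' t / (F t - z)) t := by
    intro t ht
    rw [uIcc_of_le hT] at ht
    have h0 := hslit t ht
    have hne : F t - z ≠ 0 := by
      intro h
      rw [h, zero_div] at h0
      exact Complex.slitPlane_ne_zero h0 rfl
    have h := (((hF t).sub_const z).div_const (M - z)).clog_real h0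
    convert h using 1
    field_simp
  have hci : IntervalIntegrable (fun t => F' t / (F t - z)) volume 0 T := by
    refine ContinuousOn.intervalIntegrable ?_
    rw [uIcc_of_le hT]
    have hFc : Continuous F := continuous_iff_continuousAt.2 fun t => (hF t).continuousAt
    refine hc.continuousOn.div (hFc.sub continuous_const).continuousOn ?_
    intro t ht h
    have h0 := hslit t ht
    rw [h, zero_div] at h0
    exact Complex.slitPlane_ne_zero h0 rfl
  rw [intervalIntegral.integral_eq_sub_of_hasDerivAt hd hci, hper, sub_self]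

end Pool.Agent.H88.LD
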