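import Pool.Agent.H88.LD.Defs

/-!
# LD-CD: decomposition of a permutation of `Fin n` into cycles, and of integrals

PROOF of `cycle_decomp`. `S` = a set of representatives of the orbits of `σ` (relation `σ.SameCycle`,
decidable classically), `k c = Function.minimalPeriod σ c` (positive because `σ` has finite order:
`Function.minimalPeriod_pos_of_mem_periodicPts`, `σ^(orderOf σ) = 1`). Each `i` is `(σ^j) c` for exactly one
`c ∈ S` and one `j < k c` (Mathlib: `Equiv.Perm.SameCycle.exists_pow_eq'` or the minimal period API).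
The last statement is a sum over the bijection `(c, j) ↦ (σ^j) c` from
`S.sigma (fun c => range (k c))` to `univ` (`Finset.sum_bij'`/`Finset.sum_nbij`). You may also prove it by
any other way (e.g. induction), only the statement counts.

PROOF of `cycle_integral`. Induction on `k`: `∫_0^{2π(k+1)} = ∫_0^{2πk} + ∫_{2πk}^{2π(k+1)}` and
`∫_{2πk}^{2π(k+1)} H c = ∫_0^{2π} H c (φ + 2πk) dφ`, `H c (φ + 2π j) = H ((σ^j) c) φ` (induction on `j`).
-/

set_option autoImplicit false

open Polynomial Complex MeasureTheory Set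
open scoped Real ComplexConjugate

noncomputable section

namespace Pool.Agent.H88.LD

private theorem cd_pow_eq {n : ℕ} (σ : Equiv.Perm (Fin n)) (m : ℕ) (c : Fin n) :
    (σ ^ m) c = σ^[m] c := by
  rw [Equiv.Perm.iterate_eq_pow]

theorem cycle_decomp {n : ℕ} (σ : Equiv.Perm (Fin n)) :
    ∃ (S : Finset (Fin n)) (k : Fin n → ℕ), (∀ c, 0 < k c ∧ (σ ^ k c) c = c) ∧
      (∀ i, ∃ c ∈ S, ∃ j < k c, (σ ^ j) c = i) ∧
      ∀ (E : Type) [AddCommMonoid E] (h : Fin n → E),
        ∑ i, h i = ∑ c ∈ S, ∑ j ∈ Finset.range (k c), h ((σ ^ j) c) := by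
  classical
  let s := Equiv.Perm.SameCycle.setoid σ
  let rep : Fin n → Fin n := fun i => (Quotient.mk s i).out
  have hrep : ∀ i, σ.SameCycle (rep i) i := fun i => Quotient.exact (Quotient.out_eq (Quotient.mk s i))
  have hrepeq : ∀ i j, σ.SameCycle i j → rep i = rep j := by
    intro i j hij
    have : Quotient.mk s i = Quotient.mk s j := Quotient.sound hij
    simp only [rep, this]
  have hpos : ∀ c : Fin n, 0 < Function.minimalPeriod σ c := by
    intro c
    apply Function.minimalPeriod_pos_of_mem_periodicPts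
    rw [Function.mem_periodicPts]
    refine ⟨orderOf σ, orderOf_pos σ, ?_⟩
    show σ^[orderOf σ] c = c
    rw [← cd_pow_eq, pow_orderOf_eq_one]
    rfl
  have hcov : ∀ i, ∃ c ∈ Finset.univ.image rep, ∃ j < Function.minimalPeriod σ c, (σ ^ j) c = i := by
    intro i
    refine ⟨rep i, Finset.mem_image_of_mem _ (Finset.mem_univ _), ?_⟩
    obtain ⟨m, _, hm⟩ := (hrep i).exists_pow_eq'
    refine ⟨m % Function.minimalPeriod σ (rep i), Nat.mod_lt _ (hpos _), ?_⟩
    rw [cd_pow_eq, Function.iterate_mod_minimalPeriod_eq, ← cd_pow_eq, hm]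
  refine ⟨Finset.univ.image rep, fun c => Function.minimalPeriod σ c, ?_, hcov, ?_⟩
  · intro c
    refine ⟨hpos c, ?_⟩
    rw [cd_pow_eq, Function.iterate_minimalPeriod]
  · intro E _ h
    rw [Finset.sum_sigma']
    symm
    refine Finset.sum_bij (fun x _ => (σ ^ x.2) x.1) (fun _ _ => Finset.mem_univ _) ?_ ?_ ?_
    · rintro ⟨c, j⟩ hc ⟨d, l⟩ hd heq
      simp only [Finset.mem_sigma, Finset.mem_range, Finset.mem_image, Finset.mem_univ,
        true_and] at hc hd
      obtain ⟨⟨c', hc'⟩, hj⟩ := hc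
      obtain ⟨⟨d', hd'⟩, hl⟩ := hd
      simp only at heq
      have hcc : rep c = c := by
        rw [← hc']
        exact hrepeq _ _ (hrep c')
      have hdd : rep d = d := by
        rw [← hd']
        exact hrepeq _ _ (hrep d')
      have hsame : σ.SameCycle c d := by
        have h1 : σ.SameCycle c ((σ ^ j) c) := ⟨j, by rw [zpow_natCast]⟩
        have h2 : σ.SameCycle d ((σ ^ l) d) := ⟨l, by rw [zpow_natCast]⟩
        rw [heq] at h1
        exact h1.trans h2.symm
      have hcd : c = d := by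
        rw [← hcc, ← hdd]
        exact hrepeq _ _ hsame
      subst hcd
      rw [cd_pow_eq, cd_pow_eq] at heq
      have hjl : j = l := (Function.iterate_eq_iterate_iff_of_lt_minimalPeriod hj hl).1 heq
      subst hjl
      rfl
    · intro i _
      obtain ⟨c, hc, j, hj, hji⟩ := hcov i
      exact ⟨⟨c, j⟩, by simp only [Finset.mem_sigma, Finset.mem_range]; exact ⟨hc, hj⟩, hji⟩
    · intro a _
      rfl

theorem shift_iter {n : ℕ} {E : Type} (σ : Equiv.Perm (Fin n)) (H : Fin n → ℝ → E)
    (hs : ∀ i φ, H i (φ + 2 * π) = H (σ i) φ) (c : Fin n) (j : ℕ) (φ : ℝ) :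
    H c (φ + 2 * π * j) = H ((σ ^ j) c) φ := by
  induction j generalizing φ with
  | zero => simp
  | succ j ih =>
    have h1 : φ + 2 * π * ((j + 1 : ℕ) : ℝ) = (φ + 2 * π) + 2 * π * j := by
      push_cast
      ring
    rw [h1, ih, hs, pow_succ']
    rfl

theorem cycle_integral {n : ℕ} {E : Type} [NormedAddCommGroup E] [NormedSpace ℝ E]
    (σ : Equiv.Perm (Fin n)) (H : Fin n → ℝ → E) (hH : ∀ i, Continuous (H i))
    (hs : ∀ i φ, H i (φ + 2 * π) = H (σ i) φ) (c : Fin n) (k : ℕ) :
    ∫ φ in (0 : ℝ)..(2 * π * k), H c φ =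
      ∑ j ∈ Finset.range k, ∫ φ in (0 : ℝ)..(2 * π), H ((σ ^ j) c) φ := by
  induction k with
  | zero => simp
  | succ k ih =>
    rw [Finset.sum_range_succ, ← ih]
    have hi : ∀ a b : ℝ, IntervalIntegrable (H c) volume a b := fun a b =>
      (hH c).intervalIntegrable a b
    rw [← intervalIntegral.integral_add_adjacent_intervals (hi 0 (2 * π * k))
      (hi (2 * π * k) (2 * π * ((k + 1 : ℕ) : ℝ)))]
    congr 1
    have h1 : ∀ φ, H ((σ ^ k) c) φ = H c (φ + 2 * π * k) := fun φ =>
      (shift_iter σ H hs c k φ).symm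
    simp only [h1]
    rw [intervalIntegral.integral_comp_add_right (fun x => H c x)]
    congr 1
    · ring
    · push_cast
      ring

end Pool.Agent.H88.LD
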