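import Pool.Agent.H88.LD.Defs

/-!
# LD-CS: Cauchy-Schwarz

PROOF. `(∫_0^{2π} g)² ≤ 2π ∫_0^{2π} g²` for continuous `g` (e.g. from `∫ (g - c)² ≥ 0` with `c` the mean, or
`MeasureTheory` Hölder), and `(∑_{i<n} x_i)² ≤ n ∑ x_i²` (`sq_sum_le_card_mul_sum_sq`).
-/

set_option autoImplicit false

open Polynomial Complex MeasureTheory Set
open scoped Real ComplexConjugate

noncomputable section

namespace Pool.Agent.H88.LD

/-- Cauchy-Schwarz for one continuous function on `[0, 2π]` -/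
private theorem cs_one (g : ℝ → ℝ) (hg : Continuous g) :
    (∫ φ in (0 : ℝ)..(2 * π), g φ) ^ 2 ≤ 2 * π * ∫ φ in (0 : ℝ)..(2 * π), g φ ^ 2 := by
  have hpi : (0 : ℝ) < 2 * π := by positivity
  set c : ℝ := (∫ φ in (0 : ℝ)..(2 * π), g φ) / (2 * π) with hc
  have hc' : (∫ φ in (0 : ℝ)..(2 * π), g φ) = 2 * π * c := by
    rw [hc]; field_simp
  have h0 : 0 ≤ ∫ φ in (0 : ℝ)..(2 * π), (g φ - c) ^ 2 :=
    intervalIntegral.integral_nonneg hpi.le (fun φ _ => sq_nonneg _)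
  have hi2 : IntervalIntegrable (fun φ => g φ ^ 2) volume 0 (2 * π) :=
    (hg.pow 2).intervalIntegrable _ _
  have hi1 : IntervalIntegrable (fun φ => 2 * c * g φ) volume 0 (2 * π) :=
    (continuous_const.mul hg).intervalIntegrable _ _
  have hi0 : IntervalIntegrable (fun _ : ℝ => c ^ 2) volume 0 (2 * π) :=
    continuous_const.intervalIntegrable _ _
  have h1 : (∫ φ in (0 : ℝ)..(2 * π), (g φ - c) ^ 2) =
      (∫ φ in (0 : ℝ)..(2 * π), g φ ^ 2) - 2 * c * (∫ φ in (0 : ℝ)..(2 * π), g φ)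
        + 2 * π * c ^ 2 := by
    have e : (fun φ => (g φ - c) ^ 2) = fun φ => (g φ ^ 2 - 2 * c * g φ) + c ^ 2 := by
      funext φ; ring
    rw [e, intervalIntegral.integral_add (hi2.sub hi1) hi0,
      intervalIntegral.integral_sub hi2 hi1, intervalIntegral.integral_const_mul,
      intervalIntegral.integral_const]
    simp only [sub_zero, smul_eq_mul]
  rw [h1, hc'] at h0
  rw [hc']
  nlinarith

theorem len_sq_le {n : ℕ} (S : ArcSys n) : S.len ^ 2 ≤ 2 * π * n * S.energy := by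
  have h1 : S.len ^ 2 ≤ n * ∑ i, (∫ φ in (0 : ℝ)..(2 * π), ‖S.F' i φ‖) ^ 2 := by
    have := sq_sum_le_card_mul_sum_sq (s := (Finset.univ : Finset (Fin n)))
      (f := fun i => ∫ φ in (0 : ℝ)..(2 * π), ‖S.F' i φ‖)
    simpa [ArcSys.len] using this
  have h2 : ∑ i, (∫ φ in (0 : ℝ)..(2 * π), ‖S.F' i φ‖) ^ 2 ≤
      ∑ i, 2 * π * ∫ φ in (0 : ℝ)..(2 * π), ‖S.F' i φ‖ ^ 2 :=
    Finset.sum_le_sum fun i _ => cs_one (fun φ => ‖S.F' i φ‖) (S.cont i).norm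
  rw [← Finset.mul_sum] at h2
  have h3 : (n : ℝ) * ∑ i, (∫ φ in (0 : ℝ)..(2 * π), ‖S.F' i φ‖) ^ 2 ≤
      n * (2 * π * ∑ i, ∫ φ in (0 : ℝ)..(2 * π), ‖S.F' i φ‖ ^ 2) :=
    mul_le_mul_of_nonneg_left h2 (Nat.cast_nonneg n)
  calc S.len ^ 2 ≤ _ := h1
    _ ≤ _ := h3
    _ = 2 * π * n * S.energy := by rw [ArcSys.energy]; ring

end Pool.Agent.H88.LD
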