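import Mathlib

/-!
# Project LD (MP_ff60c2_an): lemniscates are covered by discs of total radius 2.4

Definitions for the whole project.

* `W x = 2 ∫₀ˣ √(1 - t²) dt` (so `W x = arcsin x + x √(1 - x²)` on `[0,1]` and `W x = π/2` for `x ≥ 1`).
* `Reg f u`: the level `|f| = e^u` contains no critical point of `f`.
* `area f u`: the area of `{|f| < e^u}`.
* `Lifts f n a b`: `n` holomorphic functions `Z i` on the strip `a < Re ω < b` with
  `f (Z i ω) = exp ω`, different for different `i`, permuted by the shift `ω ↦ ω + 2πi`.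
* `ArcSys n`: `n` curves of class `C¹`, defined on `ℝ`, permuted by the shift `φ ↦ φ + 2π`.
  `len`, `sarea`, `energy`, `wind`: their total length, signed area, energy, winding (over `[0, 2π]`).
* `Lifts.arc L u`: the curves `φ ↦ Z i (u + iφ)`, i.e. the level curve `|f| = e^u`.
* `NoCover f n h`: every cover of `{|f| ≤ 1}` by at most `n` discs has total radius `≥ h`.
* `LensGrowth α`: the growth properties of the normalised area.
-/

set_option autoImplicit false

open Polynomial Complex MeasureTheory Set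
open scoped Real ComplexConjugate

noncomputable section

namespace Pool.Agent.H88.LD

/-- `W x = 2 ∫₀ˣ √(1 - t²) dt` (Lean's square root of a negative number is `0`). -/
def W (x : ℝ) : ℝ := 2 * ∫ t in (0 : ℝ)..x, √(1 - t ^ 2)

/-- the level `|f| = e^u` contains no critical point -/
def Reg (f : ℂ[X]) (u : ℝ) : Prop :=
  ∀ z : ℂ, f.derivative.eval z = 0 → ‖f.eval z‖ ≠ Real.exp u

/-- the area of `{|f| < e^u}` -/
def area (f : ℂ[X]) (u : ℝ) : ℝ := (volume {z : ℂ | ‖f.eval z‖ < Real.exp u}).toReal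

/-- the strip `a < Re ω < b` -/
def strip (a b : ℝ) : Set ℂ := {ω : ℂ | ω.re ∈ Ioo a b}

/-- `n` holomorphic lifts of `exp` through `f` on the strip `a < Re ω < b` -/
structure Lifts (f : ℂ[X]) (n : ℕ) (a b : ℝ) where
  Z : Fin n → ℂ → ℂ
  σ : Equiv.Perm (Fin n)
  diff : ∀ i, DifferentiableOn ℂ (Z i) (strip a b)
  eval : ∀ i, ∀ ω ∈ strip a b, f.eval (Z i ω) = Complex.exp ω
  inj : ∀ ω ∈ strip a b, Function.Injective (fun i => Z i ω)
  shift : ∀ i, ∀ ω ∈ strip a b, Z i (ω + 2 * π * I) = Z (σ i) ω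

/-- `n` curves of class `C¹` which are permuted by the shift by `2π` -/
structure ArcSys (n : ℕ) where
  F : Fin n → ℝ → ℂ
  F' : Fin n → ℝ → ℂ
  σ : Equiv.Perm (Fin n)
  hasDeriv : ∀ i φ, HasDerivAt (F i) (F' i φ) φ
  cont : ∀ i, Continuous (F' i)
  shift : ∀ i φ, F i (φ + 2 * π) = F (σ i) φ

namespace ArcSys

variable {n : ℕ} (S : ArcSys n)

/-- total length -/
def len : ℝ := ∑ i, ∫ φ in (0 : ℝ)..(2 * π), ‖S.F' i φ‖

/-- total signed area -/
def sarea : ℝ := (1 / 2) * ∑ i, ∫ φ in (0 : ℝ)..(2 * π), (conj (S.F i φ) * S.F' i φ).im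

/-- total energy -/
def energy : ℝ := ∑ i, ∫ φ in (0 : ℝ)..(2 * π), ‖S.F' i φ‖ ^ 2

/-- total winding integral around `z` -/
def wind (z : ℂ) : ℂ := ∑ i, ∫ φ in (0 : ℝ)..(2 * π), S.F' i φ / (S.F i φ - z)

end ArcSys

/-- the points `u + iφ` of the strip -/
theorem mem_strip {a b u : ℝ} (hu : u ∈ Ioo a b) (φ : ℝ) : ((u : ℂ) + φ * I) ∈ strip a b := by
  simpa [strip] using hu

theorem isOpen_strip (a b : ℝ) : IsOpen (strip a b) := by
  have : strip a b = Complex.re ⁻¹' Ioo a b := rfl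
  rw [this]
  exact isOpen_Ioo.preimage Complex.continuous_re

/-- the level curve `|f| = e^u` -/
def Lifts.arc {f : ℂ[X]} {n : ℕ} {a b : ℝ} (L : Lifts f n a b) (u : ℝ) (hu : u ∈ Ioo a b) :
    ArcSys n where
  F i φ := L.Z i (u + φ * I)
  F' i φ := deriv (L.Z i) (u + φ * I) * I
  σ := L.σ
  hasDeriv i φ := by
    have h1 : HasDerivAt (L.Z i) (deriv (L.Z i) (u + φ * I)) (u + φ * I) :=
      ((L.diff i).differentiableAt ((isOpen_strip a b).mem_nhds (mem_strip hu φ))).hasDerivAt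
    have h2 : HasDerivAt (fun φ : ℝ => (u : ℂ) + φ * I) I φ := by
      have := (Complex.ofRealCLM.hasDerivAt (x := φ)).mul_const I
      simpa using this.const_add (u : ℂ)
    exact h1.comp φ h2
  cont i := by
    have h1 : ContinuousOn (deriv (L.Z i)) (strip a b) :=
      ((L.diff i).deriv (isOpen_strip a b)).continuousOn
    have h2 : Continuous (fun φ : ℝ => (u : ℂ) + φ * I) := by fun_prop
    exact (h1.comp_continuous h2 (mem_strip hu)).mul continuous_const
  shift i φ := by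
    have h := L.shift i _ (mem_strip hu φ)
    rw [← h]
    congr 1
    push_cast
    ring

/-- every cover of `{|f| ≤ 1}` by at most `n` discs has total radius at least `h` -/
def NoCover (f : ℂ[X]) (n : ℕ) (h : ℝ) : Prop :=
  ∀ (C : Finset (Fin n)) (M : Fin n → ℂ) (R : Fin n → ℝ), (∀ c, 0 ≤ R c) →
    (∀ z : ℂ, ‖f.eval z‖ ≤ 1 → ∃ c ∈ C, ‖z - M c‖ ≤ R c) → h ≤ ∑ c ∈ C, R c

/-- the growth properties of the normalised area `α s = area f (n s) / h²` -/
structure LensGrowth (α : ℝ → ℝ) : Prop where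
  mono : ∀ s₁ s₂, 0 ≤ s₁ → s₁ ≤ s₂ → α s₁ ≤ α s₂
  nonneg : ∀ s, 0 ≤ s → 0 ≤ α s
  lens : ∀ q, 0 < q → q ≤ 1 → ∀ s₁ s₂, 0 ≤ s₁ → s₁ < s₂ → α s₂ ≤ π →
    (s₂ - s₁) / (2 * π) * (q * α s₁ + 2 * W q / q) ^ 2 ≤ α s₂ - α s₁
  iso : ∀ s₁ s₂, 0 ≤ s₁ → s₁ < s₂ → 2 * (s₂ - s₁) * α s₁ ≤ α s₂ - α s₁

end Pool.Agent.H88.LD
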