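import Pool.Agent.H88.LD.Defs

/-!
# LD-LI: existence of the lifts

PROOF. `A = strip a b` is convex, open, nonempty: as a subtype it is simply connected
(contractible) and locally path connected. `exp` maps it into the set of regular values: for
`ω ∈ A`, `exp ω ∉ f.eval '' {k | f.derivative.eval k = 0}` because `‖exp ω‖ = e^(re ω)` and `Reg f (re ω)`.
Mathlib: `Polynomial.isCoveringMapOn_eval` and `IsCoveringMapOn.existsUnique_continuousMap_lifts`
(with `f := (exp restricted to A : C(A, ℂ))`, `s := (f.eval '' {k | f'.eval k = 0})ᶜ`): for every base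
point `a₀ ∈ A` and `e₀` with `f e₀ = exp a₀` there is a unique continuous lift `Z : C(A, ℂ)`, `Z a₀ = e₀`,
`f ∘ Z = exp`.
* Base point `ω₀ = (a+b)/2`. `f - C (exp ω₀)` has `n` distinct roots (monic, degree `n`, all roots simple as
  `f' ≠ 0` there; `IsAlgClosed.splits`, `Polynomial.nodup_roots`), enumerate them by an injective
  `z : Fin n → ℂ`; every root is a `z j`. `Z i` = the lift with `Z i ω₀ = z i`, extended by `0` outside `A`.
* Holomorphic: at `ω ∈ A`, `f'(Z i ω) ≠ 0`, so `f` has a local inverse `g` at `Z i ω`, holomorphic at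
  `exp ω` (`HasStrictDerivAt.localInverse`, `eventually_left_inverse`, `to_localInverse`), and
  `Z i = g ∘ exp` near `ω` by continuity of `Z i`.
* `inj`: if `Z i ω = Z j ω`, uniqueness of lifts with base point `ω` gives `Z i = Z j` on `A`, so `z i = z j`.
* `shift`: `ω ↦ Z i (ω + 2πi)` is a continuous lift of `exp` on `A`; its value at `ω₀` is a root of
  `f - exp ω₀`, so `= z j` for some `j =: σ i`; uniqueness: `Z i (ω + 2πi) = Z (σ i) ω` on `A`. `σ` is
  injective by `inj` at `ω₀ + 2πi ∈ A`, so a permutation (`Equiv.ofBijective`, `Finite.injective_iff_bijective`).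
-/

set_option autoImplicit false

open Polynomial Complex MeasureTheory Set
open scoped Real ComplexConjugate

noncomputable section

namespace Pool.Agent.H88.LD

theorem li_strip_eq (a b : ℝ) : strip a b = Complex.re ⁻¹' Ioo a b := rfl

theorem li_convex (a b : ℝ) : Convex ℝ (strip a b) := by
  have h := (convex_Ioo a b).linear_preimage Complex.reLm
  exact h

theorem li_mem_mid {a b : ℝ} (hab : a < b) : (((a + b) / 2 : ℝ) : ℂ) ∈ strip a b := by
  have h : (((a + b) / 2 : ℝ) : ℂ).re ∈ Ioo a b := by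
    rw [Complex.ofReal_re]
    constructor <;> linarith
  exact h

theorem li_shift_mem {a b : ℝ} {ω : ℂ} (h : ω ∈ strip a b) : ω + 2 * π * I ∈ strip a b := by
  have h1 : ω.re ∈ Ioo a b := h
  have h2 : (ω + 2 * π * I).re = ω.re := by simp
  have h3 : (ω + 2 * π * I).re ∈ Ioo a b := by rw [h2]; exact h1
  exact h3

theorem li_deriv_ne {f : ℂ[X]} {a b : ℝ} (hreg : ∀ u ∈ Ioo a b, Reg f u) {ω z : ℂ}
    (hω : ω ∈ strip a b) (hz : f.eval z = Complex.exp ω) : f.derivative.eval z ≠ 0 := by
  intro h0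
  have h1 : ω.re ∈ Ioo a b := hω
  apply hreg ω.re h1 z h0
  rw [hz, Complex.norm_exp]

/-- existence and uniqueness of lifts with a prescribed value -/
theorem li_exUnique {f : ℂ[X]} {a b : ℝ} (hab : a < b) (hreg : ∀ u ∈ Ioo a b, Reg f u)
    (ω : strip a b) (z : ℂ) (hz : f.eval z = Complex.exp ω) :
    ∃! F : C(strip a b, ℂ), F ω = z ∧ ∀ w : strip a b, f.eval (F w) = Complex.exp w := by
  haveI : ContractibleSpace (strip a b) := (li_convex a b).contractibleSpace ⟨_, li_mem_mid hab⟩
  haveI : LocallyPathConnectedSpace (strip a b) := (isOpen_strip a b).locallyPathConnectedSpace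
  have h := (Polynomial.isCoveringMapOn_eval f).existsUnique_continuousMap_lifts
    (⟨fun w : strip a b => Complex.exp w, by fun_prop⟩ : C(strip a b, ℂ)) (a₀ := ω) (e₀ := z)
    (by simpa using hz) (by
      intro w
      simp only [ContinuousMap.coe_mk, mem_compl_iff, mem_image, Set.mem_ofPred_eq, not_exists, not_and]
      intro k hk hk2
      exact li_deriv_ne hreg w.2 hk2 hk)
  obtain ⟨F, ⟨hF1, hF2⟩, hF3⟩ := h
  refine ⟨F, ⟨hF1, fun w => congrFun hF2 w⟩, ?_⟩
  rintro G ⟨hG1, hG2⟩
  apply hF3 G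
  exact ⟨hG1, funext hG2⟩

theorem li_unique {f : ℂ[X]} {a b : ℝ} (hab : a < b) (hreg : ∀ u ∈ Ioo a b, Reg f u)
    (ω : strip a b) (F G : C(strip a b, ℂ))
    (hF : ∀ w : strip a b, f.eval (F w) = Complex.exp w)
    (hG : ∀ w : strip a b, f.eval (G w) = Complex.exp w) (h : F ω = G ω) : F = G := by
  have hu := li_exUnique hab hreg ω (G ω) (hG ω)
  exact hu.unique ⟨h, hF⟩ ⟨rfl, hG⟩

/-- the roots of `f - c` at a regular value: an enumeration -/
theorem li_roots {f : ℂ[X]} (hf : f.Monic) {n : ℕ} (hn : f.natDegree = n) (hn0 : 0 < n) (c : ℂ)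
    (hreg : ∀ z : ℂ, f.eval z = c → f.derivative.eval z ≠ 0) :
    ∃ e : Fin n ≃ {z : ℂ // f.eval z = c}, True := by
  classical
  set p : ℂ[X] := f - C c with hp
  have hpm : p.natDegree = n := by
    rw [hp, Polynomial.natDegree_sub_C, hn]
  have hp0 : p ≠ 0 := by
    intro h
    rw [h, Polynomial.natDegree_zero] at hpm
    omega
  have hder : p.derivative = f.derivative := by
    rw [hp]; simp
  have hroot : ∀ z : ℂ, p.IsRoot z ↔ f.eval z = c := by
    intro z
    rw [hp, Polynomial.IsRoot.def]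
    simp [sub_eq_zero]
  have hcard : Multiset.card p.roots = n := by
    have h1 : p.Splits := IsAlgClosed.splits p
    have := h1.natDegree_eq_card_roots
    rw [← this, hpm]
  have hnd : p.roots.Nodup := by
    rw [Multiset.nodup_iff_count_le_one]
    intro z
    rw [Polynomial.count_roots]
    by_contra hcon
    have hlt : 1 < p.rootMultiplicity z := not_le.mp hcon
    rw [Polynomial.one_lt_rootMultiplicity_iff_isRoot hp0] at hlt
    obtain ⟨h1, h2⟩ := hlt
    have h3 := (hroot z).mp h1
    apply hreg z h3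
    rw [hder] at h2
    exact h2
  have hfin : p.roots.toFinset.card = n := by
    rw [Multiset.toFinset_card_of_nodup hnd, hcard]
  have hmem : ∀ z : ℂ, z ∈ p.roots.toFinset ↔ f.eval z = c := by
    intro z
    rw [Multiset.mem_toFinset, Polynomial.mem_roots hp0, hroot]
  have e1 : p.roots.toFinset ≃ Fin n := Finset.equivFinOfCardEq hfin
  exact ⟨e1.symm.trans (Equiv.subtypeEquivRight hmem), trivial⟩

/-- a continuous solution of `f (g w) = exp w` is holomorphic -/
theorem li_diff {f : ℂ[X]} {ω : ℂ} {g : ℂ → ℂ} (hg : ContinuousAt g ω)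
    (hev : ∀ᶠ w in nhds ω, f.eval (g w) = Complex.exp w)
    (hd : f.derivative.eval (g ω) ≠ 0) : DifferentiableAt ℂ g ω := by
  have hs : HasStrictDerivAt (fun z => f.eval z) (f.derivative.eval (g ω)) (g ω) :=
    f.hasStrictDerivAt (g ω)
  have hinv : HasStrictDerivAt (hs.localInverse _ _ _ hd) (f.derivative.eval (g ω))⁻¹
      (f.eval (g ω)) := hs.to_localInverse hd
  have hleft : ∀ᶠ z in nhds (g ω), hs.localInverse _ _ _ hd (f.eval z) = z :=
    (hs.hasStrictFDerivAt_equiv hd).eventually_left_inverse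
  have hval : f.eval (g ω) = Complex.exp ω := hev.self_of_nhds
  have heq : g =ᶠ[nhds ω] fun w => hs.localInverse _ _ _ hd (Complex.exp w) := by
    filter_upwards [hg.eventually hleft, hev] with w h1 h2
    rw [← h2, h1]
  have h3 : DifferentiableAt ℂ (hs.localInverse _ _ _ hd) (Complex.exp ω) := by
    rw [← hval]
    exact hinv.hasDerivAt.differentiableAt
  have h4 : DifferentiableAt ℂ (fun w => hs.localInverse _ _ _ hd (Complex.exp w)) ω :=
    h3.comp ω Complex.differentiable_exp.differentiableAt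
  exact h4.congr_of_eventuallyEq heq

theorem exists_lifts (f : ℂ[X]) (hf : f.Monic) (n : ℕ) (hn : f.natDegree = n) (hn0 : 0 < n)
    (a b : ℝ) (hab : a < b) (hreg : ∀ u ∈ Ioo a b, Reg f u) : Nonempty (Lifts f n a b) := by
  classical
  set ω₀ : strip a b := ⟨_, li_mem_mid hab⟩ with hω₀
  obtain ⟨e, -⟩ := li_roots hf hn hn0 (Complex.exp ω₀)
    (fun z hz => li_deriv_ne hreg ω₀.2 hz)
  have hex : ∀ i : Fin n, ∃ F : C(strip a b, ℂ), F ω₀ = (e i : ℂ) ∧
      ∀ w : strip a b, f.eval (F w) = Complex.exp w := fun i =>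
    (li_exUnique hab hreg ω₀ (e i : ℂ) (e i).2).exists
  choose F hF0 hF1 using hex
  have hFinj : ∀ (ω : strip a b) (i j : Fin n), F i ω = F j ω → i = j := by
    intro ω i j h
    have h1 : F i = F j := li_unique hab hreg ω _ _ (hF1 i) (hF1 j) h
    have h2 : (e i : ℂ) = (e j : ℂ) := by rw [← hF0 i, ← hF0 j, h1]
    exact e.injective (Subtype.ext h2)
  set sh : strip a b → strip a b := fun w => ⟨(w : ℂ) + 2 * π * I, li_shift_mem w.2⟩ with hsh
  have hshc : Continuous sh := by
    rw [hsh]
    exact Continuous.subtype_mk (by fun_prop) _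
  have hexp : ∀ w : strip a b, Complex.exp (sh w : ℂ) = Complex.exp w := by
    intro w
    have : (sh w : ℂ) = (w : ℂ) + 2 * π * I := rfl
    rw [this, Complex.exp_periodic]
  have hG1 : ∀ (i : Fin n) (w : strip a b), f.eval (F i (sh w)) = Complex.exp w := by
    intro i w
    rw [hF1 i (sh w), hexp]
  set σ : Fin n → Fin n := fun i => e.symm ⟨F i (sh ω₀), hG1 i ω₀⟩ with hσ
  have hσe : ∀ i, (e (σ i) : ℂ) = F i (sh ω₀) := by
    intro i
    rw [hσ]
    simp
  have hσF : ∀ (i : Fin n) (w : strip a b), F i (sh w) = F (σ i) w := by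
    intro i w
    have h1 : (F i).comp ⟨sh, hshc⟩ = F (σ i) := by
      apply li_unique hab hreg ω₀ _ _ (fun w => hG1 i w) (hF1 (σ i))
      rw [hF0, hσe]
      rfl
    have h2 := congrArg (fun G : C(strip a b, ℂ) => G w) h1
    exact h2
  have hσinj : Function.Injective σ := by
    intro i j h
    apply hFinj (sh ω₀) i j
    rw [← hσe, ← hσe, h]
  have hσbij : Function.Bijective σ := Finite.injective_iff_bijective.mp hσinj
  have hZ : ∀ (i : Fin n) (ω : ℂ) (h : ω ∈ strip a b),
      (if h : ω ∈ strip a b then F i ⟨ω, h⟩ else 0) = F i ⟨ω, h⟩ := by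
    intro i ω h
    rw [dif_pos h]
  refine ⟨{
    Z := fun i ω => if h : ω ∈ strip a b then F i ⟨ω, h⟩ else 0
    σ := Equiv.ofBijective σ hσbij
    diff := ?_
    eval := ?_
    inj := ?_
    shift := ?_ }⟩
  · intro i ω hω
    apply DifferentiableAt.differentiableWithinAt
    have hnh : strip a b ∈ nhds ω := (isOpen_strip a b).mem_nhds hω
    apply li_diff (f := f)
    · have hc : ContinuousOn (fun ω => if h : ω ∈ strip a b then F i ⟨ω, h⟩ else 0)
          (strip a b) := by
        rw [continuousOn_iff_continuous_domRestrict]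
        have : (strip a b).domRestrict (fun ω => if h : ω ∈ strip a b then F i ⟨ω, h⟩ else 0)
            = F i := by
          ext w
          simp [Set.domRestrict]
        rw [this]
        exact (F i).continuous
      exact hc.continuousAt hnh
    · filter_upwards [hnh] with w hw
      rw [hZ i w hw]
      exact hF1 i ⟨w, hw⟩
    · rw [hZ i ω hω]
      exact li_deriv_ne hreg hω (hF1 i ⟨ω, hω⟩)
  · intro i ω hω
    rw [hZ i ω hω]
    exact hF1 i ⟨ω, hω⟩
  · intro ω hω i j hij
    simp only at hij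
    rw [hZ i ω hω, hZ j ω hω] at hij
    exact hFinj ⟨ω, hω⟩ i j hij
  · intro i ω hω
    rw [hZ i _ (li_shift_mem hω), hZ _ ω hω]
    exact hσF i ⟨ω, hω⟩

end Pool.Agent.H88.LD
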