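import Pool.Agent.H88.LD.KI
import Pool.Agent.H88.LD.CV
import Pool.Agent.H88.LD.CS
import Pool.Agent.H88.LD.LI

/-!
# LD-GR: growth of the area across critical levels

PROOF of `finite_split`. Strong induction on the number of points of `C` in `Ioo x y`: none: hypothesis;
otherwise split at such a point `c` and add.

PROOF of `crit_finite`. `f.derivative ≠ 0` (`f.natDegree ≠ 0`, characteristic zero) has finitely many roots; take the
image of its root set under `z ↦ log ‖f.eval z‖`.

PROOF of `growth_reg`. Take `L` from `exists_lifts` on `(x, y)`. For `x < a' ≤ b' < y`: `len² ≤ 2πn energy`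
(`len_sq_le`) and the hypothesis `m ≤ len²` on the levels of `(x,y)` give `energy ≥ m/(2πn)`, so by `area_growth`
`m/(2πn) (b' - a') ≤ area f b' - area f a' ≤ area f y - area f x` (`area_mono`). Let `a' → x`, `b' → y`.

PROOF of `growth_all`. `finite_split` for the function `area f` on `[x₀, y₀] = [x, y]` with `C = crit_finite`, using
`growth_reg` on the pieces.

PROOF of `lensGrowth`. `α s = area f (n s)/h²`. `mono, nonneg`: clear. For `s₁ < s₂` use `growth_all` with
`x = n s₁, y = n s₂` and the following `m`: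
* `iso`: `m = 4π area f x`: `len² ≥ 4π area f u ≥ 4π area f x` (`key_ineq`). Result:
  `area f y - area f x ≥ (n s₂ - n s₁) 4π area f x/(2πn) = 2 (s₂ - s₁) area f x`.
* `lens`: `ρ = h/q ≥ h`, `m = (q area f x/h + 2 (h/q) W q)²`; `area f u ≤ area f y ≤ π h²`, so
  `len ≥ area f u/ρ + 2ρ W (h/ρ) ≥ q area f x/h + 2 (h/q) W q ≥ 0`. Divide the result by `h²`:
  `α s₂ - α s₁ ≥ (s₂ - s₁)/(2π) (q α s₁ + 2 W q/q)²`.
-/

set_option autoImplicit false

open Polynomial Complex MeasureTheory Set
open scoped Real ComplexConjugate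

noncomputable section

namespace Pool.Agent.H88.LD

private theorem gr_split_aux (g : ℝ → ℝ) (m : ℝ) (C : Finset ℝ) (x₀ y₀ : ℝ)
    (hg : ∀ x y, x₀ ≤ x → x < y → y ≤ y₀ → (∀ c ∈ C, c ∉ Ioo x y) → m * (y - x) ≤ g y - g x) :
    ∀ N : ℕ, ∀ x y, (C.filter (fun c => c ∈ Ioo x y)).card ≤ N → x₀ ≤ x → x < y → y ≤ y₀ →
      m * (y - x) ≤ g y - g x := by
  classical
  intro N
  induction N with
  | zero =>
    intro x y hc h1 h2 h3
    apply hg x y h1 h2 h3
    intro c hcC hcI
    have h0 : (C.filter (fun c => c ∈ Ioo x y)) = ∅ := Finset.card_eq_zero.mp (Nat.le_zero.mp hc)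
    have : c ∈ (C.filter (fun c => c ∈ Ioo x y)) := Finset.mem_filter.mpr ⟨hcC, hcI⟩
    rw [h0] at this
    simp at this
  | succ N ih =>
    intro x y hc h1 h2 h3
    by_cases hex : ∃ c ∈ C, c ∈ Ioo x y
    · obtain ⟨c, hcC, hcI⟩ := hex
      have hmem : c ∈ (C.filter (fun c => c ∈ Ioo x y)) := Finset.mem_filter.mpr ⟨hcC, hcI⟩
      have hsub1 : (C.filter (fun d => d ∈ Ioo x c)).card ≤ N := by
        have : (C.filter (fun d => d ∈ Ioo x c)) ⊂ (C.filter (fun d => d ∈ Ioo x y)) := by
          rw [Finset.ssubset_iff_of_subset]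
          · refine ⟨c, hmem, ?_⟩
            intro h
            exact lt_irrefl _ (Finset.mem_filter.mp h).2.2
          · intro d hd
            rw [Finset.mem_filter] at hd ⊢
            exact ⟨hd.1, hd.2.1, hd.2.2.trans hcI.2⟩
        have := Finset.card_lt_card this
        omega
      have hsub2 : (C.filter (fun d => d ∈ Ioo c y)).card ≤ N := by
        have : (C.filter (fun d => d ∈ Ioo c y)) ⊂ (C.filter (fun d => d ∈ Ioo x y)) := by
          rw [Finset.ssubset_iff_of_subset]
          · refine ⟨c, hmem, ?_⟩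
            intro h
            exact lt_irrefl _ (Finset.mem_filter.mp h).2.1
          · intro d hd
            rw [Finset.mem_filter] at hd ⊢
            exact ⟨hd.1, hcI.1.trans hd.2.1, hd.2.2⟩
        have := Finset.card_lt_card this
        omega
      have e1 := ih x c hsub1 h1 hcI.1 (hcI.2.le.trans h3)
      have e2 := ih c y hsub2 (h1.trans hcI.1.le) hcI.2 h3
      nlinarith
    · push Not at hex
      exact hg x y h1 h2 h3 hex

theorem finite_split (g : ℝ → ℝ) (m : ℝ) (C : Finset ℝ) (x₀ y₀ : ℝ)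
    (hg : ∀ x y, x₀ ≤ x → x < y → y ≤ y₀ → (∀ c ∈ C, c ∉ Ioo x y) → m * (y - x) ≤ g y - g x) :
    ∀ x y, x₀ ≤ x → x < y → y ≤ y₀ → m * (y - x) ≤ g y - g x := by
  classical
  intro x y h1 h2 h3
  exact gr_split_aux g m C x₀ y₀ hg _ x y le_rfl h1 h2 h3

theorem crit_finite (f : ℂ[X]) (hf : f.Monic) (hn : f.natDegree ≠ 0) :
    ∃ C : Finset ℝ, ∀ u : ℝ, ¬ Reg f u → u ∈ C := by
  classical
  have hd : f.derivative ≠ 0 := by
    intro h
    exact hn (Polynomial.derivative_eq_zero.mp h)
  refine ⟨f.derivative.roots.toFinset.image (fun z => Real.log ‖f.eval z‖), ?_⟩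
  intro u hu
  unfold Reg at hu
  push Not at hu
  obtain ⟨z, hz, hzu⟩ := hu
  rw [Finset.mem_image]
  refine ⟨z, ?_, ?_⟩
  · rw [Multiset.mem_toFinset, Polynomial.mem_roots hd]
    exact hz
  · rw [hzu, Real.log_exp]

theorem growth_reg (f : ℂ[X]) (n : ℕ) (hf : f.Monic) (hn : f.natDegree = n) (hn0 : 0 < n)
    (x y : ℝ) (hxy : x < y) (hreg : ∀ u ∈ Ioo x y, Reg f u) (m : ℝ)
    (hm : ∀ (a b : ℝ) (L : Lifts f n a b) (u : ℝ) (hu : u ∈ Ioo a b), u ∈ Ioo x y →
      m ≤ (L.arc u hu).len ^ 2) :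
    m / (2 * π * n) * (y - x) ≤ area f y - area f x := by
  obtain ⟨L⟩ := exists_lifts f hf n hn hn0 x y hxy hreg
  have hnd : f.natDegree ≠ 0 := by omega
  have hmono := area_mono f hf hnd
  have hnpos : (0 : ℝ) < n := by exact_mod_cast hn0
  have hc : 0 < 2 * π * n := by positivity
  have key : ∀ a' b', x < a' → a' ≤ b' → b' < y →
      m / (2 * π * n) * (b' - a') ≤ area f y - area f x := by
    intro a' b' h1 h2 h3
    have h := area_growth hf hn hn0 L a' b' h1 h2 h3 (m / (2 * π * n)) (by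
      intro u hu _
      have e1 := hm x y L u hu hu
      have e2 := len_sq_le (L.arc u hu)
      rw [div_le_iff₀ hc]
      linarith)
    have e1 : area f b' ≤ area f y := hmono h3.le
    have e2 : area f x ≤ area f a' := hmono h1.le
    linarith
  -- let δ → 0
  by_contra hcon
  push Not at hcon
  set D := area f y - area f x with hD
  set K := m / (2 * π * n) with hK
  -- the function δ ↦ K * ((y - δ) - (x + δ)) is continuous
  have hcont : Filter.Tendsto (fun δ : ℝ => K * ((y - δ) - (x + δ))) (nhdsWithin 0 (Ioi 0))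
      (nhds (K * (y - x))) := by
    have : Continuous (fun δ : ℝ => K * ((y - δ) - (x + δ))) := by fun_prop
    have h := this.tendsto 0
    simp only [sub_zero, add_zero] at h
    exact h.mono_left nhdsWithin_le_nhds
  have hle : K * (y - x) ≤ D := by
    apply le_of_tendsto hcont
    have hI : Ioo (0 : ℝ) ((y - x) / 2) ∈ nhdsWithin (0 : ℝ) (Ioi 0) :=
      Ioo_mem_nhdsGT (by linarith)
    filter_upwards [hI] with δ hδ
    exact key (x + δ) (y - δ) (by linarith [hδ.1]) (by linarith [hδ.2]) (by linarith [hδ.1])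
  linarith

theorem growth_all (f : ℂ[X]) (n : ℕ) (hf : f.Monic) (hn : f.natDegree = n) (hn0 : 0 < n)
    (x y : ℝ) (hxy : x < y) (m : ℝ)
    (hm : ∀ (a b : ℝ) (L : Lifts f n a b) (u : ℝ) (hu : u ∈ Ioo a b), u ∈ Ioo x y →
      m ≤ (L.arc u hu).len ^ 2) :
    m / (2 * π * n) * (y - x) ≤ area f y - area f x := by
  have hnd : f.natDegree ≠ 0 := by omega
  obtain ⟨C, hC⟩ := crit_finite f hf hnd
  apply finite_split (area f) (m / (2 * π * n)) C x y ?_ x y le_rfl hxy le_rfl
  intro x' y' h1 h2 h3 h4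
  apply growth_reg f n hf hn hn0 x' y' h2
  · intro u hu
    by_contra hcon
    exact h4 u (hC u hcon) hu
  · intro a b L u hu hu'
    exact hm a b L u hu ⟨lt_of_le_of_lt h1 hu'.1, lt_of_lt_of_le hu'.2 h3⟩

theorem lensGrowth (f : ℂ[X]) (n : ℕ) (hf : f.Monic) (hn : f.natDegree = n) (hn0 : 0 < n)
    (h : ℝ) (hh : 0 < h) (hnc : NoCover f n h) :
    LensGrowth (fun s => area f (n * s) / h ^ 2) := by
  have hnd : f.natDegree ≠ 0 := by omega
  have hmono := area_mono f hf hnd
  have hnpos : (0 : ℝ) < n := by exact_mod_cast hn0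
  have hnn : ∀ u, 0 ≤ area f u := fun u => ENNReal.toReal_nonneg
  have hh2 : 0 < h ^ 2 := by positivity
  refine ⟨?_, ?_, ?_, ?_⟩
  · intro s₁ s₂ _ h2
    have : area f (n * s₁) ≤ area f (n * s₂) := hmono (by nlinarith)
    show area f (n * s₁) / h ^ 2 ≤ area f (n * s₂) / h ^ 2
    gcongr
  · intro s _
    show 0 ≤ area f (n * s) / h ^ 2
    exact div_nonneg (hnn _) hh2.le
  · intro q hq hq1 s₁ s₂ h0 h1 hπ
    show (s₂ - s₁) / (2 * π) * (q * (area f (n * s₁) / h ^ 2) + 2 * W q / q) ^ 2 ≤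
      area f (n * s₂) / h ^ 2 - area f (n * s₁) / h ^ 2
    have hπ' : area f (n * s₂) ≤ π * h ^ 2 := by
      have : area f (n * s₂) / h ^ 2 ≤ π := hπ
      rwa [div_le_iff₀ hh2] at this
    have hlt : (n : ℝ) * s₁ < n * s₂ := by nlinarith
    have hx0 : 0 ≤ (n : ℝ) * s₁ := by positivity
    set A := area f (n * s₁) with hA
    have hA0 : 0 ≤ A := hnn _
    have hWq : 0 ≤ W q := W_nonneg hq.le
    have hbase : 0 ≤ q * A / h + 2 * (h / q) * W q := by positivity
    have hg := growth_all f n hf hn hn0 (n * s₁) (n * s₂) hlt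
      ((q * A / h + 2 * (h / q) * W q) ^ 2) (by
        intro a b L u hu hu'
        have hu0 : 0 < u := lt_of_le_of_lt hx0 hu'.1
        have hk := (key_ineq hf hn hn0 h hh hnc L u hu hu0).2 (h / q)
          (by rw [le_div_iff₀ hq]; nlinarith)
          ((hmono hu'.2.le).trans hπ')
        have e1 : h / (h / q) = q := by field_simp
        rw [e1] at hk
        have e2 : A ≤ area f u := hmono hu'.1.le
        have e3 : q * A / h ≤ area f u / (h / q) := by
          have : area f u / (h / q) = q * area f u / h := by field_simp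
          rw [this]
          gcongr
        have e4 : q * A / h + 2 * (h / q) * W q ≤ (L.arc u hu).len := by linarith
        exact pow_le_pow_left₀ hbase e4 2)
    have e5 : (s₂ - s₁) / (2 * π) * (q * (A / h ^ 2) + 2 * W q / q) ^ 2 =
        ((q * A / h + 2 * (h / q) * W q) ^ 2 / (2 * π * n) * (n * s₂ - n * s₁)) / h ^ 2 := by
      have hπ0 : π ≠ 0 := Real.pi_ne_zero
      have hh0 : h ≠ 0 := hh.ne'
      have hq0 : q ≠ 0 := hq.ne'
      have hn0' : (n : ℝ) ≠ 0 := hnpos.ne'
      field_simp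
    rw [e5, ← sub_div]
    gcongr
  · intro s₁ s₂ h0 h1
    show 2 * (s₂ - s₁) * (area f (n * s₁) / h ^ 2) ≤
      area f (n * s₂) / h ^ 2 - area f (n * s₁) / h ^ 2
    have hlt : (n : ℝ) * s₁ < n * s₂ := by nlinarith
    have hx0 : 0 ≤ (n : ℝ) * s₁ := by positivity
    set A := area f (n * s₁) with hA
    have hg := growth_all f n hf hn hn0 (n * s₁) (n * s₂) hlt (4 * π * A) (by
        intro a b L u hu hu'
        have hu0 : 0 < u := lt_of_le_of_lt hx0 hu'.1
        have hk := (key_ineq hf hn hn0 h hh hnc L u hu hu0).1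
        have e2 : A ≤ area f u := hmono hu'.1.le
        have e3 : 4 * π * A ≤ 4 * π * area f u := by
          have : 0 < 4 * π := by positivity
          gcongr
        linarith)
    have e5 : 2 * (s₂ - s₁) * (A / h ^ 2) =
        (4 * π * A / (2 * π * n) * (n * s₂ - n * s₁)) / h ^ 2 := by
      have hπ0 : π ≠ 0 := Real.pi_ne_zero
      have hh0 : h ≠ 0 := hh.ne'
      have hn0' : (n : ℝ) ≠ 0 := hnpos.ne'
      field_simp
      ring
    rw [e5, ← sub_div]
    gcongr

end Pool.Agent.H88.LD
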