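import Pool.Agent.H88.LD.WF
import Pool.Agent.H88.LD.CB

/-!
# LD-HL: half of the lens inequality

PROOF. Let `u` be a unit complex number with `G t₁ = R u` (`u = G t₁/R` if `R ≠ 0`, `u = 1` if `R = 0`;
note `R ≥ 0`). Put `H t = conj u * G t`, `H' t = conj u * G' t`. Then `H t₁ = R`, `‖H'‖ = ‖G'‖`,
`conj H * H' = conj G * G'`, `‖H‖ = ‖G‖ ≤ R ≤ ρ` so `|re H| ≤ ρ`, `H b = - H a`.
Apply `calib` to `H` on `[t₁, b]` and to `-H` on `[a, t₁]`:
`∫_{t₁}^b (..) ≥ Psi ρ (H b) - Psi ρ (R)`, `∫_a^{t₁} (..) ≥ Psi ρ (-R) - Psi ρ (- H a)`.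
Sum: `∫_a^b (..) ≥ Psi ρ (-R) - Psi ρ R` because `H b = - H a`. Finally
`Psi ρ (-R) - Psi ρ R = - ∫_0^{-R} + ∫_0^R = 2 ∫_0^R √(1 - t²/ρ²) dt = ρ W (R/ρ)` (`W_scale`, evenness or
`W_neg` with `W_scale`).
-/

set_option autoImplicit false

open Polynomial Complex MeasureTheory Set
open scoped Real ComplexConjugate

noncomputable section

namespace Pool.Agent.H88.LD

private theorem hl_psi_diff (ρ R : ℝ) (hρ : 0 < ρ) :
    Psi ρ (-(R : ℂ)) - Psi ρ (R : ℂ) = ρ * W (R / ρ) := by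
  have h1 := W_scale hρ R
  have h2 := W_scale hρ (-R)
  rw [neg_div, W_neg] at h2
  have e1 : Psi ρ (R : ℂ) = -(∫ t in (0 : ℝ)..R, √(1 - t ^ 2 / ρ ^ 2)) := by
    simp [Psi]
  have e2 : Psi ρ (-(R : ℂ)) = -(∫ t in (0 : ℝ)..(-R), √(1 - t ^ 2 / ρ ^ 2)) := by
    simp [Psi]
  rw [e1, e2]
  linarith

private theorem hl_unit (z : ℂ) (R : ℝ) (h : ‖z‖ = R) :
    ∃ v : ℂ, ‖v‖ = 1 ∧ v * z = (R : ℂ) := by
  by_cases hz : z = 0
  · refine ⟨1, by simp, ?_⟩
    subst hz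
    rw [norm_zero] at h
    rw [← h]
    simp
  · have hn : (‖z‖ : ℂ) ≠ 0 := by
      simpa using hz
    refine ⟨conj z / (‖z‖ : ℂ), ?_, ?_⟩
    · rw [norm_div, RCLike.norm_conj, Complex.norm_real, norm_norm]
      exact div_self (by simpa using hz)
    · rw [div_mul_eq_mul_div, Complex.conj_mul', ← h, pow_two, mul_div_assoc, div_self hn, mul_one]

private theorem hl_conj_mul (v z w : ℂ) (hv : ‖v‖ = 1) :
    conj (v * z) * (v * w) = conj z * w := by
  have h : conj v * v = 1 := by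
    rw [Complex.conj_mul', hv]; simp
  calc conj (v * z) * (v * w) = (conj v * v) * (conj z * w) := by
        rw [map_mul]; ring
    _ = conj z * w := by rw [h, one_mul]

theorem half_lens (ρ R : ℝ) (hρ : 0 < ρ) (hRρ : R ≤ ρ) (G G' : ℝ → ℂ) (a b : ℝ) (hab : a ≤ b)
    (hG : ∀ t, HasDerivAt G (G' t) t) (hc : Continuous G') (hend : G b = - G a)
    (hR : ∀ t ∈ Icc a b, ‖G t‖ ≤ R) (t₁ : ℝ) (ht₁ : t₁ ∈ Icc a b) (hR1 : ‖G t₁‖ = R) :
    ρ * W (R / ρ) ≤ ∫ t in a..b, (‖G' t‖ - (conj (G t) * G' t).im / (2 * ρ)) := by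
  obtain ⟨v, hv, hvR⟩ := hl_unit (G t₁) R hR1
  have hGc : Continuous G := continuous_iff_continuousAt.2 fun t => (hG t).continuousAt
  have hcont : Continuous fun t => (‖G' t‖ - (conj (G t) * G' t).im / (2 * ρ)) := by
    fun_prop
  -- first piece
  have h1 := calib ρ hρ (fun t => v * G t) (fun t => v * G' t) t₁ b ht₁.2
    (fun t => (hG t).const_mul v) (by fun_prop) (by
      intro t ht
      have h := hR t ⟨ht₁.1.trans ht.1, ht.2⟩
      calc |(v * G t).re| ≤ ‖v * G t‖ := Complex.abs_re_le_norm _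
        _ = ‖G t‖ := by rw [norm_mul, hv, one_mul]
        _ ≤ ρ := h.trans hRρ)
  -- second piece
  have h2 := calib ρ hρ (fun t => (-v) * G t) (fun t => (-v) * G' t) a t₁ ht₁.1
    (fun t => (hG t).const_mul (-v)) (by fun_prop) (by
      intro t ht
      have h := hR t ⟨ht.1, ht.2.trans ht₁.2⟩
      calc |((-v) * G t).re| ≤ ‖(-v) * G t‖ := Complex.abs_re_le_norm _
        _ = ‖G t‖ := by rw [norm_mul, norm_neg, hv, one_mul]
        _ ≤ ρ := h.trans hRρ)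
  have e1 : ∀ t, ‖v * G' t‖ - (conj (v * G t) * (v * G' t)).im / (2 * ρ)
      = ‖G' t‖ - (conj (G t) * G' t).im / (2 * ρ) := by
    intro t
    rw [hl_conj_mul v _ _ hv, norm_mul, hv, one_mul]
  have e2 : ∀ t, ‖(-v) * G' t‖ - (conj ((-v) * G t) * ((-v) * G' t)).im / (2 * ρ)
      = ‖G' t‖ - (conj (G t) * G' t).im / (2 * ρ) := by
    intro t
    rw [hl_conj_mul (-v) _ _ (by rw [norm_neg, hv]), norm_mul, norm_neg, hv, one_mul]
  simp only [e1] at h1
  simp only [e2] at h2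
  have h3 := intervalIntegral.integral_add_adjacent_intervals
    (hcont.intervalIntegrable a t₁) (hcont.intervalIntegrable t₁ b) (μ := volume)
  have h4 := hl_psi_diff ρ R hρ
  have e3 : (-v) * G a = v * G b := by rw [hend]; ring
  have e4 : (-v) * G t₁ = -(R : ℂ) := by rw [neg_mul, hvR]
  rw [hvR] at h1
  rw [e3, e4] at h2
  linarith

end Pool.Agent.H88.LD
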