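import Pool.Agent.H88.LD.Defs

/-!
# LD-WF: elementary facts on `W x = 2 ∫₀ˣ √(1 - t²) dt`

PROOFS. The integrand `g t = √(1 - t²)` is continuous, even, between `0` and `1`, antitone on `[0, ∞)`
and `0` for `t ≥ 1`. So `W` is odd, monotone, constant for `x ≥ 1`, with value `W 1 = π/2`
(Mathlib: `integral_sqrt_one_sub_sq : ∫ x in (-1)..1, √(1 - x^2) = π/2`, and evenness).
* `W_add_le`: for `x, y ≥ 0`: `W (x+y) - W x = 2 ∫_x^{x+y} g = 2 ∫_0^y g (x + t) dt ≤ 2 ∫_0^y g t dt`
  (`g` antitone on `[0,∞)`). `W_sum_le`: induction.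
* `W_scale`: substitution `t = ρ s` (`intervalIntegral.integral_comp_div` or `..._comp_mul_left`).
* `W_lower`: for `0 < q ≤ 1`: `W q ≥ 2 q √(1 - q²)` (`g` antitone): not needed, skip.
-/

set_option autoImplicit false

open Polynomial Complex MeasureTheory Set
open scoped Real ComplexConjugate

noncomputable section

namespace Pool.Agent.H88.LD

/-- the integrand -/
private def wf_g (t : ℝ) : ℝ := √(1 - t ^ 2)

private theorem wf_cont : Continuous wf_g := by
  unfold wf_g; fun_prop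

private theorem wf_int (a b : ℝ) : IntervalIntegrable wf_g volume a b :=
  wf_cont.intervalIntegrable a b

private theorem wf_nonneg (t : ℝ) : 0 ≤ wf_g t := Real.sqrt_nonneg _

private theorem wf_even (t : ℝ) : wf_g (-t) = wf_g t := by
  simp [wf_g]

private theorem wf_zero {t : ℝ} (ht : 1 ≤ t) : wf_g t = 0 := by
  unfold wf_g
  exact Real.sqrt_eq_zero_of_nonpos (by nlinarith)

private theorem wf_anti {s t : ℝ} (hs : 0 ≤ s) (hst : s ≤ t) : wf_g t ≤ wf_g s := by
  unfold wf_g
  exact Real.sqrt_le_sqrt (by nlinarith)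

private theorem wf_W (x : ℝ) : W x = 2 * ∫ t in (0 : ℝ)..x, wf_g t := rfl

private theorem wf_sub (x y : ℝ) : W y - W x = 2 * ∫ t in x..y, wf_g t := by
  rw [wf_W, wf_W, ← mul_sub, intervalIntegral.integral_interval_sub_left (wf_int 0 y) (wf_int 0 x)]

theorem W_zero : W 0 = 0 := by
  simp [W]

theorem W_neg (x : ℝ) : W (-x) = - W x := by
  rw [wf_W, wf_W]
  have h := intervalIntegral.integral_comp_neg (a := 0) (b := x) wf_g
  simp only [wf_even, neg_zero] at h
  rw [h, intervalIntegral.integral_symm]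
  ring

theorem W_mono : Monotone W := by
  intro x y hxy
  have h := wf_sub x y
  have h1 : 0 ≤ ∫ t in x..y, wf_g t :=
    intervalIntegral.integral_nonneg hxy fun t _ => wf_nonneg t
  linarith

theorem W_nonneg {x : ℝ} (hx : 0 ≤ x) : 0 ≤ W x := by
  rw [← W_zero]; exact W_mono hx

theorem W_one : W 1 = π / 2 := by
  have h := wf_sub (-1) 1
  rw [W_neg] at h
  have h1 : ∫ t in (-1 : ℝ)..1, wf_g t = π / 2 := integral_sqrt_one_sub_sq
  rw [h1] at h
  linarith

theorem W_of_one_le {x : ℝ} (hx : 1 ≤ x) : W x = π / 2 := by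
  have h := wf_sub 1 x
  have h1 : ∫ t in (1 : ℝ)..x, wf_g t = 0 := by
    have h2 : ∫ t in (1 : ℝ)..x, wf_g t = ∫ t in (1 : ℝ)..x, (0 : ℝ) := by
      refine intervalIntegral.integral_congr fun t ht => ?_
      rw [uIcc_of_le hx] at ht
      exact wf_zero ht.1
    rw [h2]
    simp
  rw [h1, W_one] at h
  linarith

theorem W_le (x : ℝ) : W x ≤ π / 2 := by
  rcases le_total 1 x with h | h
  · exact (W_of_one_le h).le
  · rw [← W_one]
    exact W_mono h

theorem W_add_le {x y : ℝ} (hx : 0 ≤ x) (hy : 0 ≤ y) : W (x + y) ≤ W x + W y := by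
  have h := wf_sub x (x + y)
  have h1 : ∫ t in x..(x + y), wf_g t = ∫ t in (0 : ℝ)..y, wf_g (x + t) := by
    rw [intervalIntegral.integral_comp_add_left, add_zero]
  have h2 : ∫ t in (0 : ℝ)..y, wf_g (x + t) ≤ ∫ t in (0 : ℝ)..y, wf_g t := by
    refine intervalIntegral.integral_mono_on hy
      ((wf_cont.comp (by fun_prop : Continuous fun t : ℝ => x + t)).intervalIntegrable _ _)
      (wf_int _ _) fun t ht => ?_
    exact wf_anti ht.1 (by linarith)
  have h3 := wf_W y
  rw [h1] at h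
  linarith

theorem W_sum_le {ι : Type*} (s : Finset ι) (x : ι → ℝ) (hx : ∀ i ∈ s, 0 ≤ x i) :
    W (∑ i ∈ s, x i) ≤ ∑ i ∈ s, W (x i) := by
  classical
  induction s using Finset.induction_on with
  | empty => simp [W_zero]
  | insert a s ha ih =>
    rw [Finset.sum_insert ha, Finset.sum_insert ha]
    have h1 := ih fun i hi => hx i (Finset.mem_insert_of_mem hi)
    have h2 := W_add_le (hx a (Finset.mem_insert_self a s))
      (Finset.sum_nonneg fun i hi => hx i (Finset.mem_insert_of_mem hi))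
    linarith

theorem W_scale {ρ : ℝ} (hρ : 0 < ρ) (R : ℝ) :
    2 * ∫ t in (0 : ℝ)..R, √(1 - t ^ 2 / ρ ^ 2) = ρ * W (R / ρ) := by
  have h := intervalIntegral.integral_comp_div (a := 0) (b := R) wf_g hρ.ne'
  rw [zero_div, smul_eq_mul] at h
  have h1 : ∫ t in (0 : ℝ)..R, √(1 - t ^ 2 / ρ ^ 2) = ∫ t in (0 : ℝ)..R, wf_g (t / ρ) := by
    refine intervalIntegral.integral_congr fun t _ => ?_
    simp only [wf_g, div_pow]
  rw [h1, h, wf_W]
  ring

end Pool.Agent.H88.LD
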