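import Pool.Agent.H88.LD.LV
import Pool.Agent.H88.LD.AR
import Pool.Agent.H88.LD.WF

/-!
# LD-KI: the key inequality on a level `u > 0`

PROOF. Let `S = L.arc u hu`, `A = area f u = S.sarea ≥ 0` (`sarea_eq`), `C, M, R` from `level_discs S`,
`h' = ∑_{c ∈ C} R c`. If `‖f.eval z‖ ≤ 1 < e^u` then `S.wind z = 2πI ≠ 0` (`wind_lifts`), so
`‖z - M c‖ ≤ R c` for some `c ∈ C`. `hnc` gives `h ≤ h'`. Every `R c ≤ h'` for `c ∈ C`.
With `ρ = h'` (> 0): `S.len ≥ A/h' + 2 h' ∑ W (R c/h') ≥ A/h' + 2 h' W (∑ R c/h') = A/h' + 2 h' W 1 = A/h' + π h'` (*)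
(`W_sum_le`, `W_one`). As `(A/h' + π h')² - 4πA = (A/h' - π h')² ≥ 0`, part 1 follows.
Part 2: if `h' ≤ ρ`: `S.len ≥ A/ρ + 2ρ ∑ W (R c/ρ) ≥ A/ρ + 2ρ W (h'/ρ) ≥ A/ρ + 2ρ W (h/ρ)` (`W_sum_le`, `W_mono`).
If `ρ < h'`: from (*), `A/h' + π h' ≥ A/ρ + πρ` because
`(A/h' + πh') - (A/ρ + πρ) = (h' - ρ)(π - A/(ρ h')) ≥ 0` (`A ≤ π h² ≤ π ρ h'`), and `πρ ≥ 2ρ W (h/ρ)` (`W_le`).
-/

set_option autoImplicit false

open Polynomial Complex MeasureTheory Set
open scoped Real ComplexConjugate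

noncomputable section

namespace Pool.Agent.H88.LD

theorem key_ineq {f : ℂ[X]} {n : ℕ} {a b : ℝ} (hf : f.Monic) (hn : f.natDegree = n) (hn0 : 0 < n)
    (h : ℝ) (hh : 0 < h) (hnc : NoCover f n h) (L : Lifts f n a b) (u : ℝ) (hu : u ∈ Ioo a b)
    (hu0 : 0 < u) :
    4 * π * area f u ≤ (L.arc u hu).len ^ 2 ∧
      ∀ ρ : ℝ, h ≤ ρ → area f u ≤ π * h ^ 2 →
        area f u / ρ + 2 * ρ * W (h / ρ) ≤ (L.arc u hu).len := by
  have hA0 : 0 ≤ area f u := ENNReal.toReal_nonneg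
  have hS : (L.arc u hu).sarea = area f u := sarea_eq hf hn hn0 L u hu
  obtain ⟨C, M, R, hR0, hcov, hlens⟩ := level_discs (L.arc u hu)
  have hcover : ∀ z : ℂ, ‖f.eval z‖ ≤ 1 → ∃ c ∈ C, ‖z - M c‖ ≤ R c := by
    intro z hz
    by_contra hcon
    push Not at hcon
    have h1 := hcov z hcon
    have h2 : ‖f.eval z‖ < Real.exp u := lt_of_le_of_lt hz (Real.one_lt_exp_iff.2 hu0)
    rw [wind_lifts hf hn hn0 L u hu z h2.ne, if_pos h2] at h1
    exact Complex.two_pi_I_ne_zero h1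
  have hh' : h ≤ ∑ c ∈ C, R c := hnc C M R hR0 hcover
  set h' : ℝ := ∑ c ∈ C, R c with hh'def
  have hpos : 0 < h' := hh.trans_le hh'
  have hRle : ∀ c ∈ C, R c ≤ h' := fun c hc =>
    Finset.single_le_sum (f := R) (fun i _ => hR0 i) hc
  rw [hS] at hlens
  have hsum : ∀ ρ : ℝ, 0 < ρ → 2 * ρ * W (h' / ρ) ≤ ∑ c ∈ C, 2 * ρ * W (R c / ρ) := by
    intro ρ hρ
    rw [← Finset.mul_sum, hh'def, Finset.sum_div]
    exact mul_le_mul_of_nonneg_left
      (W_sum_le C (fun c => R c / ρ) fun i _ => div_nonneg (hR0 i) hρ.le) (by positivity)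
  have hstar : area f u / h' + π * h' ≤ (L.arc u hu).len := by
    have h1 := hlens h' hpos hRle
    have h2 := hsum h' hpos
    rw [div_self hpos.ne', W_one] at h2
    have h3 : 2 * h' * (π / 2) = π * h' := by ring
    rw [h3] at h2
    linarith
  have hAh : area f u / h' * h' = area f u := div_mul_cancel₀ _ hpos.ne'
  constructor
  · have h0 : 0 ≤ area f u / h' + π * h' := by positivity
    have h1 : 4 * π * area f u ≤ (area f u / h' + π * h') ^ 2 := by
      have h2 : (area f u / h' + π * h') ^ 2 =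
          (area f u / h' - π * h') ^ 2 + 4 * π * (area f u / h' * h') := by ring
      rw [h2, hAh]
      have := sq_nonneg (area f u / h' - π * h')
      linarith
    exact h1.trans (pow_le_pow_left₀ h0 hstar 2)
  · intro ρ hρ hA
    have hρ0 : 0 < ρ := hh.trans_le hρ
    rcases le_or_gt h' ρ with hc | hc
    · have h1 := hlens ρ hρ0 fun c hc' => (hRle c hc').trans hc
      have h2 := hsum ρ hρ0
      have h3 : 2 * ρ * W (h / ρ) ≤ 2 * ρ * W (h' / ρ) :=
        mul_le_mul_of_nonneg_left (W_mono (div_le_div_of_nonneg_right hh' hρ0.le)) (by positivity)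
      linarith
    · have h1 : 2 * ρ * W (h / ρ) ≤ π * ρ := by
        have := mul_le_mul_of_nonneg_left (W_le (h / ρ)) (by positivity : 0 ≤ 2 * ρ)
        linarith
      have h2 : area f u / ρ + π * ρ ≤ area f u / h' + π * h' := by
        have h3 : area f u ≤ π * (ρ * h') := by
          refine hA.trans ?_
          have : h ^ 2 ≤ ρ * h' := by nlinarith
          exact mul_le_mul_of_nonneg_left this Real.pi_pos.le
        have h4 : (area f u / h' + π * h') - (area f u / ρ + π * ρ) =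
            (h' - ρ) * (π * (ρ * h') - area f u) / (ρ * h') := by
          field_simp
          ring
        have h5 : 0 ≤ (h' - ρ) * (π * (ρ * h') - area f u) / (ρ * h') :=
          div_nonneg (mul_nonneg (by linarith) (by linarith)) (by positivity)
        linarith
      linarith

end Pool.Agent.H88.LD
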