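import Pool.Agent.H88.LD.CC
import Pool.Agent.H88.LD.CD

/-!
# LD-LV: the discs of a system of closed curves

PROOF of `F'_shift`: differentiate `F i (φ + 2π) = F (σ i) φ` (uniqueness of derivatives).

PROOF of `level_discs`. `(C, k)` from `cycle_decomp S.σ`. For `c` put `T c = 2π k c`; by `shift_iter`,
`F c (φ + T c) = F ((σ^(k c)) c) φ = F c φ`, in particular `F c (T c) = F c 0`. `closed_lens` gives `M c, R c`
(`choose`).
* Covering part: let `z` with `R c < ‖z - M c‖` for all `c ∈ C`. For `c ∈ C` and every real `t`: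
  `‖F c t - M c‖ ≤ R c` (periodicity; it is enough to know it on `[0, T c]`), so `F c t ≠ z`, and as every
  `i` is `(σ^j) c` with `c ∈ C`, `F i φ = F c (φ + 2π j) ≠ z` for all `i, φ`. So `H i φ = F' i φ/(F i φ - z)`
  is continuous and `H i (φ + 2π) = H (σ i) φ`; by `cycle_decomp` (`E = ℂ`, `h i = ∫_0^{2π} H i`) and
  `cycle_integral`: `S.wind z = ∑_{c ∈ C} ∫_0^{T c} F' c/(F c - z) = 0` by `wind_outside`.
* Lens part: the same with `H i φ = ‖F' i φ‖ - (conj (F i φ) F' i φ).im/(2ρ)` (`E = ℝ`), and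
  `∑_i ∫_0^{2π} H i = S.len - S.sarea/ρ`.
-/

set_option autoImplicit false

open Polynomial Complex MeasureTheory Set
open scoped Real ComplexConjugate

noncomputable section

namespace Pool.Agent.H88.LD

theorem F'_shift {n : ℕ} (S : ArcSys n) (i : Fin n) (φ : ℝ) :
    S.F' i (φ + 2 * π) = S.F' (S.σ i) φ := by
  have h1 : HasDerivAt (fun x : ℝ => S.F i (x + 2 * π)) (S.F' i (φ + 2 * π)) φ :=
    (S.hasDeriv i (φ + 2 * π)).comp_add_const φ (2 * π)
  have h2 : (fun x : ℝ => S.F i (x + 2 * π)) = S.F (S.σ i) := by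
    funext x
    exact S.shift i x
  rw [h2] at h1
  exact h1.unique (S.hasDeriv (S.σ i) φ)

private theorem lv_contF {n : ℕ} (S : ArcSys n) (i : Fin n) : Continuous (S.F i) :=
  continuous_iff_continuousAt.2 (fun t => (S.hasDeriv i t).continuousAt)

private theorem lv_sum {n : ℕ} {E : Type} [NormedAddCommGroup E] [NormedSpace ℝ E]
    (σ : Equiv.Perm (Fin n)) (H : Fin n → ℝ → E) (hH : ∀ i, Continuous (H i))
    (hs : ∀ i φ, H i (φ + 2 * π) = H (σ i) φ) (C : Finset (Fin n)) (k : Fin n → ℕ)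
    (hsum : ∀ (h : Fin n → E),
        ∑ i, h i = ∑ c ∈ C, ∑ j ∈ Finset.range (k c), h ((σ ^ j) c)) :
    ∑ i, ∫ φ in (0 : ℝ)..(2 * π), H i φ = ∑ c ∈ C, ∫ φ in (0 : ℝ)..(2 * π * k c), H c φ := by
  rw [hsum]
  refine Finset.sum_congr rfl (fun c _ => ?_)
  exact (cycle_integral σ H hH hs c (k c)).symm

theorem level_discs {n : ℕ} (S : ArcSys n) :
    ∃ (C : Finset (Fin n)) (M : Fin n → ℂ) (R : Fin n → ℝ), (∀ c, 0 ≤ R c) ∧
      (∀ z : ℂ, (∀ c ∈ C, R c < ‖z - M c‖) → S.wind z = 0) ∧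
      ∀ ρ : ℝ, 0 < ρ → (∀ c ∈ C, R c ≤ ρ) →
        ∑ c ∈ C, 2 * ρ * W (R c / ρ) ≤ S.len - S.sarea / ρ := by
  obtain ⟨C, k, hk, hcov, hsum⟩ := cycle_decomp S.σ
  have hπ : 0 < π := Real.pi_pos
  have hTpos : ∀ c, 0 < 2 * π * (k c : ℝ) := by
    intro c
    have : (0 : ℝ) < k c := by exact_mod_cast (hk c).1
    positivity
  have hper : ∀ c φ, S.F c (φ + 2 * π * (k c : ℝ)) = S.F c φ := by
    intro c φ
    rw [shift_iter S.σ S.F S.shift c (k c) φ, (hk c).2]
  have hper0 : ∀ c, S.F c (2 * π * (k c : ℝ)) = S.F c 0 := by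
    intro c
    have := hper c 0
    rwa [zero_add] at this
  have hcl := fun c => closed_lens (S.F c) (S.F' c) (S.hasDeriv c) (S.cont c) (2 * π * (k c : ℝ))
    (hTpos c).le (hper0 c)
  choose M R hR0 hRb hlens using hcl
  refine ⟨C, M, R, hR0, ?_, ?_⟩
  · intro z hz
    have hall : ∀ c t, ‖S.F c t - M c‖ ≤ R c := by
      intro c t
      have hp : Function.Periodic (S.F c) (2 * π * (k c : ℝ)) := fun x => hper c x
      obtain ⟨y, hy, hty⟩ := hp.exists_mem_Ico₀ (hTpos c) t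
      rw [hty]
      exact hRb c y ⟨hy.1, hy.2.le⟩
    have hne : ∀ i φ, S.F i φ - z ≠ 0 := by
      intro i φ h0
      obtain ⟨c, hc, j, _, hj⟩ := hcov i
      have h1 : S.F c (φ + 2 * π * j) = S.F i φ := by
        rw [shift_iter S.σ S.F S.shift c j φ, hj]
      have h2 : S.F i φ = z := sub_eq_zero.1 h0
      have h3 := hall c (φ + 2 * π * j)
      rw [h1, h2] at h3
      exact absurd (hz c hc) (not_lt.2 h3)
    have hH : ∀ i, Continuous (fun φ => S.F' i φ / (S.F i φ - z)) := by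
      intro i
      exact (S.cont i).div ((lv_contF S i).sub continuous_const) (hne i)
    have hs : ∀ i φ, (fun i φ => S.F' i φ / (S.F i φ - z)) i (φ + 2 * π) =
        (fun i φ => S.F' i φ / (S.F i φ - z)) (S.σ i) φ := by
      intro i φ
      simp only [F'_shift, S.shift]
    have hw := lv_sum S.σ (fun i φ => S.F' i φ / (S.F i φ - z)) hH hs C k (fun h => hsum ℂ h)
    unfold ArcSys.wind
    rw [hw]
    refine Finset.sum_eq_zero (fun c hc => ?_)
    exact wind_outside (S.F c) (S.F' c) (S.hasDeriv c) (S.cont c) (2 * π * (k c : ℝ))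
      (hTpos c).le (hper0 c) (M c) z (R c) (hRb c) (hz c hc)
  · intro ρ hρ hRρ
    have hcc : ∀ i, Continuous (fun φ => (conj (S.F i φ) * S.F' i φ).im) := by
      intro i
      exact Complex.continuous_im.comp
        ((Complex.continuous_conj.comp (lv_contF S i)).mul (S.cont i))
    have hH : ∀ i, Continuous (fun φ => ‖S.F' i φ‖ - (conj (S.F i φ) * S.F' i φ).im / (2 * ρ)) := by
      intro i
      exact (S.cont i).norm.sub ((hcc i).div_const _)
    have hs : ∀ i φ,
        (fun i φ => ‖S.F' i φ‖ - (conj (S.F i φ) * S.F' i φ).im / (2 * ρ)) i (φ + 2 * π) =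
        (fun i φ => ‖S.F' i φ‖ - (conj (S.F i φ) * S.F' i φ).im / (2 * ρ)) (S.σ i) φ := by
      intro i φ
      simp only [F'_shift, S.shift]
    have hw := lv_sum S.σ (fun i φ => ‖S.F' i φ‖ - (conj (S.F i φ) * S.F' i φ).im / (2 * ρ))
      hH hs C k (fun h => hsum ℝ h)
    have hlen : S.len - S.sarea / ρ =
        ∑ i, ∫ φ in (0 : ℝ)..(2 * π), (‖S.F' i φ‖ - (conj (S.F i φ) * S.F' i φ).im / (2 * ρ)) := by
      have h1 : ∀ i, ∫ φ in (0 : ℝ)..(2 * π),
          (‖S.F' i φ‖ - (conj (S.F i φ) * S.F' i φ).im / (2 * ρ)) =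
          (∫ φ in (0 : ℝ)..(2 * π), ‖S.F' i φ‖) -
            (∫ φ in (0 : ℝ)..(2 * π), (conj (S.F i φ) * S.F' i φ).im) / (2 * ρ) := by
        intro i
        rw [intervalIntegral.integral_sub ((S.cont i).norm.intervalIntegrable _ _)
          (((hcc i).div_const _).intervalIntegrable _ _), intervalIntegral.integral_div]
      simp only [h1]
      rw [Finset.sum_sub_distrib, ← Finset.sum_div]
      unfold ArcSys.len ArcSys.sarea
      congr 1
      field_simp
    rw [hlen, hw]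
    refine Finset.sum_le_sum (fun c hc => ?_)
    exact hlens c ρ hρ (hRρ c hc)

end Pool.Agent.H88.LD
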