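import Pool.Agent.H88.LD.WF

/-!
# LD-NU: numerical lower bounds of `W`

PROOF of `W_param` (`0 ≤ t ≤ 1`): both sides vanish at `t = 0`; the derivative of the left side is
`2 √(1 - q²) dq/dt` with `q = 2t/(1+t²)`, `√(1 - q²) = (1-t²)/(1+t²)`, `dq/dt = 2(1-t²)/(1+t²)²`, so it is
`4 (1-t²)²/(1+t²)³`, which is also the derivative of the right side. (Or: prove
`W x = arcsin x + x √(1 - x²)` for `0 ≤ x ≤ 1` first.)
PROOF of `W_param'` (`0 ≤ y ≤ 1`): the same, or `W_param` with `t = (1-y)/(1+y)` and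
`arctan t = π/4 - arctan y`.
PROOF of `arctan_lower`, `arctan_upper`: derivative `1/(1+t²)` compared with the truncated geometric series
(monotone functions vanishing at `0`).
PROOF of the table `tab_i`: `W_param`/`W_param'` at the parameter in the comment, the bounds of `arctan`,
`Real.pi_gt_d20` (or `3.141592653 < π`), `norm_num`. All inequalities have been checked numerically with
exactly these series; the margin is at least `10⁻⁶`.
-/

set_option autoImplicit false

open Polynomial Complex MeasureTheory Set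
open scoped Real ComplexConjugate

noncomputable section

namespace Pool.Agent.H88.LD

theorem nu_W_deriv (x : ℝ) : HasDerivAt W (2 * √(1 - x ^ 2)) x := by
  have hc : Continuous fun t : ℝ => √(1 - t ^ 2) := by fun_prop
  have h := (hc.integral_hasStrictDerivAt 0 x).hasDerivAt
  exact h.const_mul 2

theorem nu_W_cont : Continuous W :=
  continuous_iff_continuousAt.2 fun x => (nu_W_deriv x).continuousAt

theorem nu_sqrt {a b : ℝ} (ha : 0 ≤ a) (h : b = a ^ 2) : √b = a := by
  rw [h, Real.sqrt_sq ha]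

theorem W_param {t : ℝ} (h0 : 0 ≤ t) (h1 : t ≤ 1) :
    W (2 * t / (1 + t ^ 2)) = 2 * Real.arctan t + 2 * t * (1 - t ^ 2) / (1 + t ^ 2) ^ 2 := by
  have hd : ∀ x ∈ Ico (0 : ℝ) 1, HasDerivWithinAt
      (fun t : ℝ => W (2 * t / (1 + t ^ 2)) -
        (2 * Real.arctan t + 2 * t * (1 - t ^ 2) / (1 + t ^ 2) ^ 2)) 0 (Ici x) x := by
    intro x hx
    have hp : (0 : ℝ) < 1 + x ^ 2 := by positivity
    have hp2 : (0 : ℝ) ≤ 1 - x ^ 2 := by nlinarith [hx.1, hx.2]
    have d1 : HasDerivAt (fun t : ℝ => 1 + t ^ 2) (2 * x) x := by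
      simpa using (hasDerivAt_pow 2 x).const_add 1
    have d2 : HasDerivAt (fun t : ℝ => 2 * t) 2 x := by
      simpa using (hasDerivAt_id x).const_mul 2
    have d3 := d2.div d1 hp.ne'
    have d4 := (nu_W_deriv (2 * x / (1 + x ^ 2))).comp x d3
    have d5 : HasDerivAt (fun t : ℝ => 1 - t ^ 2) (-(2 * x)) x := by
      simpa using (hasDerivAt_pow 2 x).const_sub 1
    have d7 := (Real.hasDerivAt_arctan x).const_mul 2
    have d8 := d7.add ((d2.mul d5).div (d1.pow 2) (show (1 + x ^ 2) ^ 2 ≠ 0 by positivity))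
    have d9 := d4.sub d8
    have hs : √(1 - (2 * x / (1 + x ^ 2)) ^ 2) = (1 - x ^ 2) / (1 + x ^ 2) := by
      apply nu_sqrt (by positivity)
      field_simp
      ring
    refine (d9.congr_deriv ?_).hasDerivWithinAt
    rw [hs]
    simp only [Pi.pow_apply, Pi.mul_apply]
    push_cast
    field_simp
    ring
  have hc : ContinuousOn (fun t : ℝ => W (2 * t / (1 + t ^ 2)) -
      (2 * Real.arctan t + 2 * t * (1 - t ^ 2) / (1 + t ^ 2) ^ 2)) (Icc 0 1) := by
    apply Continuous.continuousOn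
    have h1 : ∀ t : ℝ, 1 + t ^ 2 ≠ 0 := fun t => by positivity
    have h2 : ∀ t : ℝ, (1 + t ^ 2) ^ 2 ≠ 0 := fun t => by positivity
    refine (nu_W_cont.comp (Continuous.div (by fun_prop) (by fun_prop) h1)).sub ?_
    exact (Real.continuous_arctan.const_mul _).add (Continuous.div (by fun_prop) (by fun_prop) h2)
  have h := constant_of_has_deriv_right_zero hc hd t ⟨h0, h1⟩
  simp only [mul_zero, zero_div, W_zero, Real.arctan_zero, zero_mul, add_zero, sub_zero] at h
  linarith

theorem W_param' {y : ℝ} (h0 : 0 ≤ y) (h1 : y ≤ 1) :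
    W ((1 - y ^ 2) / (1 + y ^ 2)) =
      π / 2 - 2 * Real.arctan y + 2 * y * (1 - y ^ 2) / (1 + y ^ 2) ^ 2 := by
  have hd : ∀ x ∈ Ico (0 : ℝ) 1, HasDerivWithinAt
      (fun t : ℝ => W ((1 - t ^ 2) / (1 + t ^ 2)) -
        (2 * t * (1 - t ^ 2) / (1 + t ^ 2) ^ 2 - 2 * Real.arctan t)) 0 (Ici x) x := by
    intro x hx
    have hp : (0 : ℝ) < 1 + x ^ 2 := by positivity
    have hx0 : 0 ≤ x := hx.1
    have d1 : HasDerivAt (fun t : ℝ => 1 + t ^ 2) (2 * x) x := by
      simpa using (hasDerivAt_pow 2 x).const_add 1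
    have d2 : HasDerivAt (fun t : ℝ => 2 * t) 2 x := by
      simpa using (hasDerivAt_id x).const_mul 2
    have d5 : HasDerivAt (fun t : ℝ => 1 - t ^ 2) (-(2 * x)) x := by
      simpa using (hasDerivAt_pow 2 x).const_sub 1
    have d3 := d5.div d1 hp.ne'
    have d4 := (nu_W_deriv ((1 - x ^ 2) / (1 + x ^ 2))).comp x d3
    have d7 := (Real.hasDerivAt_arctan x).const_mul 2
    have d8 := ((d2.mul d5).div (d1.pow 2) (show (1 + x ^ 2) ^ 2 ≠ 0 by positivity)).sub d7
    have d9 := d4.sub d8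
    have hs : √(1 - ((1 - x ^ 2) / (1 + x ^ 2)) ^ 2) = 2 * x / (1 + x ^ 2) := by
      apply nu_sqrt (by positivity)
      field_simp
      ring
    refine (d9.congr_deriv ?_).hasDerivWithinAt
    rw [hs]
    simp only [Pi.pow_apply, Pi.mul_apply]
    push_cast
    field_simp
    ring
  have hc : ContinuousOn (fun t : ℝ => W ((1 - t ^ 2) / (1 + t ^ 2)) -
      (2 * t * (1 - t ^ 2) / (1 + t ^ 2) ^ 2 - 2 * Real.arctan t)) (Icc 0 1) := by
    apply Continuous.continuousOn
    have h1 : ∀ t : ℝ, 1 + t ^ 2 ≠ 0 := fun t => by positivity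
    have h2 : ∀ t : ℝ, (1 + t ^ 2) ^ 2 ≠ 0 := fun t => by positivity
    refine (nu_W_cont.comp (Continuous.div (by fun_prop) (by fun_prop) h1)).sub ?_
    exact (Continuous.div (by fun_prop) (by fun_prop) h2).sub (Real.continuous_arctan.const_mul _)
  have h := constant_of_has_deriv_right_zero hc hd y ⟨h0, h1⟩
  have e1 : ((1 : ℝ) - 0 ^ 2) / (1 + 0 ^ 2) = 1 := by norm_num
  simp only [e1, W_one, mul_zero, zero_div, Real.arctan_zero, zero_mul, sub_zero] at h
  linarith

theorem nu_mono {f : ℝ → ℝ} {f' : ℝ → ℝ} (hf : ∀ x, HasDerivAt f (f' x) x)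
    (h : ∀ x, 0 ≤ f' x) (h0 : f 0 = 0) {t : ℝ} (ht : 0 ≤ t) : 0 ≤ f t := by
  rw [← h0]
  exact monotone_of_deriv_nonneg (fun x => (hf x).differentiableAt)
    (fun x => by rw [(hf x).deriv]; exact h x) ht

theorem arctan_lower {t : ℝ} (h0 : 0 ≤ t) :
    t - t ^ 3 / 3 + t ^ 5 / 5 - t ^ 7 / 7 + t ^ 9 / 9 - t ^ 11 / 11 + t ^ 13 / 13 - t ^ 15 / 15 ≤
      Real.arctan t := by
  have h := nu_mono (f := fun t : ℝ => Real.arctan t - (t - t ^ 3 / 3 + t ^ 5 / 5 - t ^ 7 / 7 +
      t ^ 9 / 9 - t ^ 11 / 11 + t ^ 13 / 13 - t ^ 15 / 15))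
    (f' := fun x => x ^ 16 / (1 + x ^ 2)) ?_ (fun x => by positivity) (by simp) h0
  · linarith
  · intro x
    have e := (Real.hasDerivAt_arctan x).sub ((((((((hasDerivAt_id x).sub
      ((hasDerivAt_pow 3 x).div_const 3)).add ((hasDerivAt_pow 5 x).div_const 5)).sub
      ((hasDerivAt_pow 7 x).div_const 7)).add ((hasDerivAt_pow 9 x).div_const 9)).sub
      ((hasDerivAt_pow 11 x).div_const 11)).add ((hasDerivAt_pow 13 x).div_const 13)).sub
      ((hasDerivAt_pow 15 x).div_const 15))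
    refine e.congr_deriv ?_
    have hp : (1 : ℝ) + x ^ 2 ≠ 0 := by positivity
    push_cast
    field_simp
    ring

theorem arctan_upper {y : ℝ} (h0 : 0 ≤ y) :
    Real.arctan y ≤
      y - y ^ 3 / 3 + y ^ 5 / 5 - y ^ 7 / 7 + y ^ 9 / 9 - y ^ 11 / 11 + y ^ 13 / 13 := by
  have h := nu_mono (f := fun t : ℝ => (t - t ^ 3 / 3 + t ^ 5 / 5 - t ^ 7 / 7 +
      t ^ 9 / 9 - t ^ 11 / 11 + t ^ 13 / 13) - Real.arctan t)
    (f' := fun x => x ^ 14 / (1 + x ^ 2)) ?_ (fun x => by positivity) (by simp) h0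
  · linarith
  · intro x
    have e := (((((((hasDerivAt_id x).sub
      ((hasDerivAt_pow 3 x).div_const 3)).add ((hasDerivAt_pow 5 x).div_const 5)).sub
      ((hasDerivAt_pow 7 x).div_const 7)).add ((hasDerivAt_pow 9 x).div_const 9)).sub
      ((hasDerivAt_pow 11 x).div_const 11)).add ((hasDerivAt_pow 13 x).div_const 13)).sub
      (Real.hasDerivAt_arctan x)
    refine e.congr_deriv ?_
    have hp : (1 : ℝ) + x ^ 2 ≠ 0 := by positivity
    push_cast
    field_simp
    ring

theorem nu_low {t q c : ℝ} (h0 : 0 < t) (h1 : t ≤ 1) (hq : q = 2 * t / (1 + t ^ 2))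
    (h : c * q ≤ 2 * (2 * (t - t ^ 3 / 3 + t ^ 5 / 5 - t ^ 7 / 7 + t ^ 9 / 9 - t ^ 11 / 11 +
      t ^ 13 / 13 - t ^ 15 / 15) + 2 * t * (1 - t ^ 2) / (1 + t ^ 2) ^ 2)) :
    c ≤ 2 * W q / q := by
  have hq0 : 0 < q := by rw [hq]; positivity
  rw [le_div_iff₀ hq0]
  refine h.trans ?_
  rw [hq, W_param h0.le h1]
  have := arctan_lower h0.le
  linarith

theorem nu_low' {y q c : ℝ} (h0 : 0 ≤ y) (h1 : y < 1) (hq : q = (1 - y ^ 2) / (1 + y ^ 2))
    (h : c * q ≤ 2 * (3.141592653 / 2 - 2 * (y - y ^ 3 / 3 + y ^ 5 / 5 - y ^ 7 / 7 + y ^ 9 / 9 -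
      y ^ 11 / 11 + y ^ 13 / 13) + 2 * y * (1 - y ^ 2) / (1 + y ^ 2) ^ 2)) :
    c ≤ 2 * W q / q := by
  have hy : 0 < 1 - y ^ 2 := by nlinarith
  have hq0 : 0 < q := by rw [hq]; positivity
  rw [le_div_iff₀ hq0]
  refine h.trans ?_
  rw [hq, W_param' h0 h1.le]
  have h2 := arctan_upper h0
  have h3 : (3.141592653 : ℝ) < π := by
    have := Real.pi_gt_d20
    norm_num at this ⊢
    linarith
  linarith

/-- parameter `t = 9/500` -/
theorem tab_1 : (799827/200000 : ℝ) ≤ 2 * W (9000/250081) / (9000/250081) :=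
  nu_low (t := 9/500) (by norm_num) (by norm_num) (by norm_num) (by norm_num)

/-- parameter `t = 53/1000` -/
theorem tab_2 : (3992537/1000000 : ℝ) ≤ 2 * W (106000/1002809) / (106000/1002809) :=
  nu_low (t := 53/1000) (by norm_num) (by norm_num) (by norm_num) (by norm_num)

/-- parameter `t = 89/1000` -/
theorem tab_3 : (994777/250000 : ℝ) ≤ 2 * W (178000/1007921) / (178000/1007921) :=
  nu_low (t := 89/1000) (by norm_num) (by norm_num) (by norm_num) (by norm_num)

/-- parameter `t = 1/8` -/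
theorem tab_4 : (3959229/1000000 : ℝ) ≤ 2 * W (16/65) / (16/65) :=
  nu_low (t := 1/8) (by norm_num) (by norm_num) (by norm_num) (by norm_num)

/-- parameter `t = 81/500` -/
theorem tab_5 : (3932517/1000000 : ℝ) ≤ 2 * W (81000/256561) / (81000/256561) :=
  nu_low (t := 81/500) (by norm_num) (by norm_num) (by norm_num) (by norm_num)

/-- parameter `t = 99/500` -/
theorem tab_6 : (3900967/1000000 : ℝ) ≤ 2 * W (99000/259801) / (99000/259801) :=
  nu_low (t := 99/500) (by norm_num) (by norm_num) (by norm_num) (by norm_num)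

/-- parameter `t = 59/250` -/
theorem tab_7 : (3862421/1000000 : ℝ) ≤ 2 * W (29500/65981) / (29500/65981) :=
  nu_low (t := 59/250) (by norm_num) (by norm_num) (by norm_num) (by norm_num)

/-- parameter `t = 11/40` -/
theorem tab_8 : (1909061/500000 : ℝ) ≤ 2 * W (880/1721) / (880/1721) :=
  nu_low (t := 11/40) (by norm_num) (by norm_num) (by norm_num) (by norm_num)

/-- parameter `t = 157/500` -/
theorem tab_9 : (1884991/500000 : ℝ) ≤ 2 * W (157000/274649) / (157000/274649) :=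
  nu_low (t := 157/500) (by norm_num) (by norm_num) (by norm_num) (by norm_num)

/-- parameter `t = 71/200` -/
theorem tab_10 : (3716329/1000000 : ℝ) ≤ 2 * W (28400/45041) / (28400/45041) :=
  nu_low (t := 71/200) (by norm_num) (by norm_num) (by norm_num) (by norm_num)

/-- parameter `t = 397/1000` -/
theorem tab_11 : (365933/100000 : ℝ) ≤ 2 * W (794000/1157609) / (794000/1157609) :=
  nu_low (t := 397/1000) (by norm_num) (by norm_num) (by norm_num) (by norm_num)

/-- parameter `y = 97/250` -/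
theorem tab_12 : (1799411/500000 : ℝ) ≤ 2 * W (53091/71909) / (53091/71909) :=
  nu_low' (y := 97/250) (by norm_num) (by norm_num) (by norm_num) (by norm_num)

/-- parameter `y = 69/200` -/
theorem tab_13 : (3535777/1000000 : ℝ) ≤ 2 * W (35239/44761) / (35239/44761) :=
  nu_low' (y := 69/200) (by norm_num) (by norm_num) (by norm_num) (by norm_num)

/-- parameter `y = 151/500` -/
theorem tab_14 : (1735277/500000 : ℝ) ≤ 2 * W (227199/272801) / (227199/272801) :=
  nu_low' (y := 151/500) (by norm_num) (by norm_num) (by norm_num) (by norm_num)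

/-- parameter `y = 13/50` -/
theorem tab_15 : (3406269/1000000 : ℝ) ≤ 2 * W (2331/2669) / (2331/2669) :=
  nu_low' (y := 13/50) (by norm_num) (by norm_num) (by norm_num) (by norm_num)

/-- parameter `y = 217/1000` -/
theorem tab_16 : (3341821/1000000 : ℝ) ≤ 2 * W (952911/1047089) / (952911/1047089) :=
  nu_low' (y := 217/1000) (by norm_num) (by norm_num) (by norm_num) (by norm_num)

/-- parameter `y = 173/1000` -/
theorem tab_17 : (1639917/500000 : ℝ) ≤ 2 * W (970071/1029929) / (970071/1029929) :=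
  nu_low' (y := 173/1000) (by norm_num) (by norm_num) (by norm_num) (by norm_num)

/-- parameter `y = 127/1000` -/
theorem tab_18 : (3222669/1000000 : ℝ) ≤ 2 * W (983871/1016129) / (983871/1016129) :=
  nu_low' (y := 127/1000) (by norm_num) (by norm_num) (by norm_num) (by norm_num)

/-- parameter `y = 77/1000` -/
theorem tab_19 : (3174191/1000000 : ℝ) ≤ 2 * W (994071/1005929) / (994071/1005929) :=
  nu_low' (y := 77/1000) (by norm_num) (by norm_num) (by norm_num) (by norm_num)

/-- parameter `y = 0` -/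
theorem tab_20 : (3141591/1000000 : ℝ) ≤ 2 * W (1) / (1) := by
  have h3 := Real.pi_gt_d20
  rw [W_one]
  norm_num at h3 ⊢
  linarith

end Pool.Agent.H88.LD
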