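import Pool.Agent.H88.LD.Defs

/-!
# LD-PF: partial fractions

PROOF. `g = f - C w` is monic of degree `n` and vanishes at the `n` distinct points `z i`, so
`g = ∏ i, (X - C (z i))` (`Lagrange.nodal univ z`; e.g. `Polynomial.eq_of_degree_sub_lt_of_eval_finset_eq`,
or `Multiset.prod_X_sub_C_dvd_iff_le_roots`, both monic of the same degree), hence
`f'(z i) = g'(z i) = ∏_{j ≠ i} (z i - z j) ≠ 0` (`Lagrange.eval_nodal_derivative_eval_node_eq`).
Interpolation of the constant `1` at the nodes `z i` (`n > 0`; `Lagrange.sum_basis`, or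
`Lagrange.eval_interpolate_not_at_node`) gives
`1 = g(x) ∑ i, 1/(g'(z i) (x - z i))` for `x` not a node (`g x = f x - w ≠ 0`). Change signs.
-/

set_option autoImplicit false

open Polynomial Complex MeasureTheory Set
open scoped Real ComplexConjugate

noncomputable section

namespace Pool.Agent.H88.LD

private theorem pf_eq_nodal (f : ℂ[X]) (hf : f.Monic) (n : ℕ) (hn : f.natDegree = n)
    (hn0 : 0 < n) (w : ℂ) (z : Fin n → ℂ) (hz : Function.Injective z)
    (hw : ∀ i, f.eval (z i) = w) : f - C w = Lagrange.nodal Finset.univ z := by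
  have hdeg : f.degree = (n : WithBot ℕ) := by
    rw [degree_eq_natDegree hf.ne_zero, hn]
  have hlt : (C w : ℂ[X]).degree < f.degree := by
    rw [hdeg]
    exact lt_of_le_of_lt degree_C_le (by exact_mod_cast hn0)
  have hg : (f - C w).Monic := hf.sub_of_left hlt
  have hgd : (f - C w).degree = (n : WithBot ℕ) := by
    rw [degree_sub_eq_left_of_degree_lt hlt, hdeg]
  apply Polynomial.eq_of_degree_le_of_eval_index_eq (v := z) Finset.univ hz.injOn
  · rw [hgd]; simp
  · rw [hgd, Lagrange.degree_nodal]; simp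
  · rw [hg.leadingCoeff, (Lagrange.nodal_monic).leadingCoeff]
  · intro i _
    rw [Lagrange.eval_nodal_at_node (Finset.mem_univ i)]
    simp [hw i]

private theorem pf_weight (f : ℂ[X]) (hf : f.Monic) (n : ℕ) (hn : f.natDegree = n)
    (hn0 : 0 < n) (w : ℂ) (z : Fin n → ℂ) (hz : Function.Injective z)
    (hw : ∀ i, f.eval (z i) = w) (i : Fin n) :
    Lagrange.nodalWeight Finset.univ z i = (f.derivative.eval (z i))⁻¹ := by
  rw [Lagrange.nodalWeight_eq_eval_derivative_nodal (Finset.mem_univ i),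
    ← pf_eq_nodal f hf n hn hn0 w z hz hw]
  simp

theorem deriv_ne_zero_of_inj (f : ℂ[X]) (hf : f.Monic) (n : ℕ) (hn : f.natDegree = n) (w : ℂ)
    (z : Fin n → ℂ) (hz : Function.Injective z) (hw : ∀ i, f.eval (z i) = w) (i : Fin n) :
    f.derivative.eval (z i) ≠ 0 := by
  have hn0 : 0 < n := i.pos
  have h := pf_weight f hf n hn hn0 w z hz hw i
  have h2 := Lagrange.nodalWeight_ne_zero (s := Finset.univ) (v := z) hz.injOn
    (Finset.mem_univ i)
  rw [h] at h2
  exact fun h0 => h2 (by rw [h0, inv_zero])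

theorem partial_fractions (f : ℂ[X]) (hf : f.Monic) (n : ℕ) (hn : f.natDegree = n) (hn0 : 0 < n)
    (w : ℂ) (z : Fin n → ℂ) (hz : Function.Injective z) (hw : ∀ i, f.eval (z i) = w) (x : ℂ)
    (hx : f.eval x ≠ w) :
    ∑ i, 1 / (f.derivative.eval (z i) * (z i - x)) = 1 / (w - f.eval x) := by
  have hxz : ∀ i ∈ (Finset.univ : Finset (Fin n)), x ≠ z i := by
    intro i _ h
    exact hx (by rw [h, hw i])
  have hne : (Finset.univ : Finset (Fin n)).Nonempty := ⟨⟨0, hn0⟩, Finset.mem_univ _⟩
  have h1 := Lagrange.eval_interpolate_not_at_node (s := Finset.univ) (v := z) (x := x) 1 hxz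
  rw [Lagrange.interpolate_one hz.injOn hne, eval_one, ← pf_eq_nodal f hf n hn hn0 w z hz hw,
    eval_sub, eval_C] at h1
  have h2 : ∑ i, 1 / (f.derivative.eval (z i) * (z i - x)) =
      -∑ i, Lagrange.nodalWeight Finset.univ z i * (x - z i)⁻¹ * (1 : Fin n → ℂ) i := by
    rw [← Finset.sum_neg_distrib]
    refine Finset.sum_congr rfl fun i _ => ?_
    rw [pf_weight f hf n hn hn0 w z hz hw i, Pi.one_apply, mul_one, one_div, mul_inv,
      ← neg_sub x (z i), inv_neg, mul_neg]
  rw [h2]
  have h3 : f.eval x - w ≠ 0 := sub_ne_zero.2 hx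
  rw [eq_div_iff (sub_ne_zero.2 (Ne.symm hx))]
  linear_combination -h1

end Pool.Agent.H88.LD
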