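import Pool.Agent.H88.LD.PF

/-!
# LD-WN: winding of the level curve

PROOF of `deriv_lift`: differentiate `f (Z i ω) = exp ω` on the (open) strip: `f'(Z) Z' = exp ω`;
`f'(Z) ≠ 0` by `deriv_ne_zero_of_inj` (`z i = Z i ω`, `w = exp ω`).

PROOF of `wind_lifts`: let `ω = u + iφ`, `w = exp ω` (`‖w‖ = e^u`, so `w ≠ f.eval z`). By
`deriv_lift` and `partial_fractions`:
`∑ i, F' i φ/(F i φ - z) = I w ∑ i, 1/(f'(Z i ω) (Z i ω - z)) = I w/(w - f.eval z)`.
The integrals are of continuous functions (`F i φ ≠ z` because `|f (F i φ)| = e^u ≠ |f z|`), so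
`wind z = ∫_0^{2π} I w/(w - f.eval z) dφ = ∮ w in C(0, e^u), (w - f.eval z)⁻¹` (`circleIntegral`,
`circleMap 0 (exp u) φ = exp (u + iφ)`), which is `2πI` if `‖f.eval z‖ < e^u`
(`circleIntegral.integral_sub_inv_of_mem_ball`) and `0` if `‖f.eval z‖ > e^u`
(`Complex.circleIntegral_eq_zero_of_differentiable_on_off_countable`).
-/

set_option autoImplicit false

open Polynomial Complex MeasureTheory Set
open scoped Real ComplexConjugate

noncomputable section

namespace Pool.Agent.H88.LD

variable {f : ℂ[X]} {n : ℕ} {a b : ℝ}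

theorem deriv_lift (hf : f.Monic) (hn : f.natDegree = n) (L : Lifts f n a b) (i : Fin n) (ω : ℂ)
    (hω : ω ∈ strip a b) :
    f.derivative.eval (L.Z i ω) ≠ 0 ∧
      deriv (L.Z i) ω = Complex.exp ω / f.derivative.eval (L.Z i ω) := by
  have hne : f.derivative.eval (L.Z i ω) ≠ 0 :=
    deriv_ne_zero_of_inj f hf n hn (Complex.exp ω) (fun j => L.Z j ω) (L.inj ω hω)
      (fun j => L.eval j ω hω) i
  refine ⟨hne, ?_⟩
  have hd : HasDerivAt (L.Z i) (deriv (L.Z i) ω) ω :=
    ((L.diff i).differentiableAt ((isOpen_strip a b).mem_nhds hω)).hasDerivAt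
  have h1 : HasDerivAt (fun x => f.eval (L.Z i x))
      (f.derivative.eval (L.Z i ω) * deriv (L.Z i) ω) ω := (f.hasDerivAt (L.Z i ω)).comp ω hd
  have h2 : HasDerivAt (fun x => f.eval (L.Z i x)) (Complex.exp ω) ω := by
    refine (Complex.hasDerivAt_exp ω).congr_of_eventuallyEq ?_
    filter_upwards [(isOpen_strip a b).mem_nhds hω] with x hx
    exact L.eval i x hx
  have h3 := h1.unique h2
  rw [eq_div_iff hne, mul_comm]
  exact h3

private theorem wn_circle (u φ : ℝ) :
    circleMap 0 (Real.exp u) φ = Complex.exp ((u : ℂ) + φ * I) := by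
  rw [circleMap, Complex.exp_add, zero_add, Complex.ofReal_exp]

theorem wind_lifts (hf : f.Monic) (hn : f.natDegree = n) (hn0 : 0 < n) (L : Lifts f n a b)
    (u : ℝ) (hu : u ∈ Ioo a b) (z : ℂ) (hz : ‖f.eval z‖ ≠ Real.exp u) :
    (L.arc u hu).wind z = if ‖f.eval z‖ < Real.exp u then 2 * π * I else 0 := by
  have hw : ∀ φ : ℝ, ‖Complex.exp ((u : ℂ) + φ * I)‖ = Real.exp u := by
    intro φ
    rw [Complex.norm_exp]
    simp
  have hwz : ∀ φ : ℝ, f.eval z ≠ Complex.exp ((u : ℂ) + φ * I) := by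
    intro φ h
    exact hz (by rw [h, hw φ])
  have hFe : ∀ i (φ : ℝ), f.eval ((L.arc u hu).F i φ) = Complex.exp ((u : ℂ) + φ * I) :=
    fun i φ => L.eval i _ (mem_strip hu φ)
  have hFz : ∀ i (φ : ℝ), (L.arc u hu).F i φ - z ≠ 0 := by
    intro i φ h
    have h1 : (L.arc u hu).F i φ = z := sub_eq_zero.1 h
    exact hwz φ (by rw [← h1, hFe i φ])
  have hcont : ∀ i, Continuous fun φ : ℝ =>
      (L.arc u hu).F' i φ / ((L.arc u hu).F i φ - z) := by
    intro i
    refine Continuous.div ((L.arc u hu).cont i) ?_ (hFz i)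
    have hc : Continuous ((L.arc u hu).F i) :=
      continuous_iff_continuousAt.2 fun φ => ((L.arc u hu).hasDeriv i φ).continuousAt
    exact hc.sub continuous_const
  have hsum : ∀ φ : ℝ, ∑ i, (L.arc u hu).F' i φ / ((L.arc u hu).F i φ - z) =
      deriv (circleMap 0 (Real.exp u)) φ • (circleMap 0 (Real.exp u) φ - f.eval z)⁻¹ := by
    intro φ
    have hp := partial_fractions f hf n hn hn0 (Complex.exp ((u : ℂ) + φ * I))
      (fun i => L.Z i (u + φ * I)) (L.inj _ (mem_strip hu φ))
      (fun i => L.eval i _ (mem_strip hu φ)) z (hwz φ)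
    rw [deriv_circleMap, wn_circle, smul_eq_mul]
    have h1 : ∀ i, (L.arc u hu).F' i φ / ((L.arc u hu).F i φ - z) =
        (Complex.exp ((u : ℂ) + φ * I) * I) *
          (1 / (f.derivative.eval (L.Z i (u + φ * I)) * (L.Z i (u + φ * I) - z))) := by
      intro i
      have h2 : (L.arc u hu).F' i φ = deriv (L.Z i) (u + φ * I) * I := rfl
      have h3 : (L.arc u hu).F i φ = L.Z i (u + φ * I) := rfl
      have h4 := hFz i φ
      rw [h3] at h4
      obtain ⟨h5, h6⟩ := deriv_lift hf hn L i (u + φ * I) (mem_strip hu φ)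
      rw [h2, h3, h6]
      field_simp
    rw [Finset.sum_congr rfl (fun i _ => h1 i), ← Finset.mul_sum, hp]
    rw [one_div]
  have hwind : (L.arc u hu).wind z = ∮ w in C(0, Real.exp u), (w - f.eval z)⁻¹ := by
    unfold ArcSys.wind circleIntegral
    rw [← intervalIntegral.integral_finset_sum (fun i _ => (hcont i).intervalIntegrable _ _)]
    exact intervalIntegral.integral_congr (fun φ _ => hsum φ)
  rw [hwind]
  by_cases hlt : ‖f.eval z‖ < Real.exp u
  · rw [if_pos hlt]
    exact circleIntegral.integral_sub_inv_of_mem_ball (by simpa using hlt)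
  · rw [if_neg hlt]
    have hgt : Real.exp u < ‖f.eval z‖ := lt_of_le_of_ne (not_lt.1 hlt) (Ne.symm hz)
    have hne : ∀ w ∈ Metric.closedBall (0 : ℂ) (Real.exp u), w - f.eval z ≠ 0 := by
      intro w hw' h
      have h1 : w = f.eval z := sub_eq_zero.1 h
      rw [mem_closedBall_zero_iff, h1] at hw'
      exact absurd hw' (not_le.2 hgt)
    refine Complex.circleIntegral_eq_zero_of_differentiable_on_off_countable
      (Real.exp_pos u).le (countable_empty) ?_ ?_
    · exact ContinuousOn.inv₀ (by fun_prop) hne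
    · intro w hw'
      have h1 : w - f.eval z ≠ 0 := hne w (Metric.ball_subset_closedBall hw'.1)
      exact (differentiableAt_id.sub (differentiableAt_const _)).inv h1

end Pool.Agent.H88.LD
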